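import Pool.Agent.helper39.FJ.Ring

/-!
# Project fj: specification, parts A - D (commutative algebra)

Every `XX_stmt` is proved in `Pool/Agent/<seat>/FJ/XX.lean`: `import Pool.Agent.helper39.FJ.SpecA` (or `SpecE`, if the
statement is there), `namespace Pool.Agent.FJ`, `open Polynomial`, `theorem XX (h : YY_stmt) ... : XX_stmt`; hypotheses: any
other statement of the project, not circularly. Auxiliary lemmas are prefixed `XX_`. No sorry, no double quotes.

## The proof

`Om = ℚbar`, `C : x^m + y^m = 1`, `O` a valuation ring of `Om` of residue characteristic `p` with residue field `k`, `σ` an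
automorphism of `Om` with `σ x ≡ x^p` modulo the maximal ideal of `O`. Reduction of points gives a homomorphism
`sp : Cl(FR Om m m) → Cl(FR k m m)` (part B). In characteristic `p`, `p = 1` modulo `m`, the norm of Coleman's function
shows that the class of `(u^p, v^p)` plus the sum of the classes of `(a^((p-1)/m) u, (1-a)^((p-1)/m) v)`,
`a ∈ 𝔽_p`, `a ≠ 0, 1`, is zero (part D). So `sp ∘ σ = sp ∘ J`, `J = - ∑_a (s_a, t_a)`, `(s_a, t_a)` pairs of `m`-th roots
of unity in `Om`. If `X ∈ ⋀ V_l` is a Tate class, it lies in `⋀ U`, `U ⊂ V_l` of finite dimension and stable under roots of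
unity. For almost all `p` `sp` is injective on `U` (part C: a class `c` with `c^m ≠ 1` does not specialise to `1`
for almost all `p`; part G). Then `sp (J X) = sp (σ X) = p^a sp X`, so `J X = p^a X`: the eigenvalues are Jacobi sums, whose
reduction modulo `p` gives the Hodge type (parts E, F) and HodgeCM applies.
-/

namespace Pool.Agent.FJ

open Polynomial

noncomputable section

/-! ## A. The ring, points, divisors -/

/-- A1: the ideal of a point is `(x - u, y - v)`; the ideals of points are different; the elements `x - u` and `y - v` are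
no zero divisors. (`f - ev q f ∈ (x - u, y - v)`: by `AdjoinRoot.induction_on` or `FR.hom_ext` for the map to the
quotient. Injective: `y - v'` is in `ptI q` only if `v = v'`. `FR A n m` is a free `A[X]`-module with basis `y^j`
(`AdjoinRoot.powerBasis'`, `FR.fpol_monic`) and `X - u` is monic; `(y - v) ∑ y^i v^(m-1-i) = y^m - v^m = -(x^n - u^n)`, `X^n - u^n` monic.) -/
def A1_stmt : Prop := ∀ (A : Type) [CommRing A] [Nontrivial A] (n m : ℕ) [NeZero n] [NeZero m]
  (q : Pt A n m),
  ptI q = Ideal.span {(FR.x : FR A n m) - algebraMap A _ q.1.1, FR.y - algebraMap A _ q.1.2} ∧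
  (∀ q' : Pt A n m, ptI q = ptI q' → q = q') ∧
  (FR.x : FR A n m) - algebraMap A _ q.1.1 ∈ nonZeroDivisors (FR A n m) ∧
  (FR.y : FR A n m) - algebraMap A _ q.1.2 ∈ nonZeroDivisors (FR A n m)

/-- A2: the ideals of points are invertible. First part: `J = (x - u, q(y))`, `q(y) = ∑ y^i v^(m-1-i)`,
`(y - v) q(y) = -(x - u) p(x)`; `ptI q * J = (x - u) (x - u, y - v, q(y), p(x))` and `q(y) = m v^(m-1)` modulo `(y - v)`, so
the second factor is `⊤`. Second part by symmetry. Third: in a local ring one of `u^n`, `v^m` is a unit. Uses A1. -/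
def A2_stmt : Prop := ∀ (A : Type) [CommRing A] (n m : ℕ) [NeZero n] [NeZero m] (q : Pt A n m),
  (IsUnit ((m : A) * q.1.2 ^ (m - 1)) →
    ∃ J, ptI q * J = Ideal.span {(FR.x : FR A n m) - algebraMap A _ q.1.1}) ∧
  (IsUnit ((n : A) * q.1.1 ^ (n - 1)) →
    ∃ J, ptI q * J = Ideal.span {(FR.y : FR A n m) - algebraMap A _ q.1.2}) ∧
  (IsLocalRing A → IsUnit (n : A) → IsUnit (m : A) →
    IsUnit ((m : A) * q.1.2 ^ (m - 1)) ∨ IsUnit ((n : A) * q.1.1 ^ (n - 1)))

/-- A3: Nullstellensatz. `FR K n m ⧸ P` is a field, finitely generated as a `K`-algebra, so finite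
(`finite_of_finite_type_of_isJacobsonRing` or `Ideal.Quotient...`), so it is `K`; `u`, `v` the images of `x`, `y`; `ptI q ≤ P`
and `ptI q` is maximal as the kernel of a surjection to a field. Uses A1. -/
def A3_stmt : Prop := ∀ (K : Type) [Field K] [IsAlgClosed K] (n m : ℕ) [NeZero n] [NeZero m],
  (∀ P : Ideal (FR K n m), P.IsMaximal → ∃ q : Pt K n m, P = ptI q) ∧
  ∀ q : Pt K n m, (ptI q).IsMaximal ∧ ptI q ≠ ⊥

/-- A4: Dedekind. Noetherian (finitely generated over a field), dimension one (nonzero primes are maximal: integral over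
`K[X]`, or every nonzero ideal contains a nonzero polynomial in `x`), and integrally closed, as all maximal ideals are
invertible (A2, A3): e.g. by `IsDedekindDomainDvr` (localisation at `ptI q` has principal maximal ideal: generator
`x - u` or `y - v` by A2), or: in a noetherian domain in which all maximal ideals are invertible every nonzero ideal is
invertible (`isDedekindDomain_iff_mul_inv_cancel`). Uses A1, A2, A3. -/
def A4_stmt : Prop := ∀ (K : Type) [Field K] [IsAlgClosed K] (n m : ℕ) [NeZero n] [NeZero m]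
  [NeZero (n : K)] [NeZero (m : K)], IsDedekindDomain (FR K n m)

/-- the ideal of a divisor -/
def dvI {K : Type} [Field K] {n m : ℕ} (S : Multiset (Pt K n m)) : Ideal (FR K n m) := (S.map ptI).prod

/-- A5: factorisation. Unique factorisation of ideals of a Dedekind domain; the prime ideals are the `ptI q` (A1, A3). -/
def A5_stmt : Prop := ∀ (K : Type) [Field K] [IsAlgClosed K] (n m : ℕ) [NeZero n] [NeZero m]
  [NeZero (n : K)] [NeZero (m : K)],
  (∀ S : Multiset (Pt K n m), dvI S ≠ ⊥) ∧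
  (∀ I : Ideal (FR K n m), I ≠ ⊥ → ∃ S, I = dvI S) ∧
  (∀ S S' : Multiset (Pt K n m), dvI S = dvI S' → S = S') ∧
  (∀ S S' : Multiset (Pt K n m), dvI S' ≤ dvI S ↔ S ≤ S') ∧
  (∀ S S' : Multiset (Pt K n m), dvI (S + S') = dvI S * dvI S')

/-- A6: norms. `Ideal.relNorm K[X]` of `ptI q` is `(X - u)`: if `v ≠ 0`, the `m` ideals of the points `(u, t v)`, `t^m = 1`, have
the same norm (`Ideal.relNorm_map_algEquiv` for `y ↦ t y`), their product is `(x - u)` (their product contains
`∏ (y - t v) = y^m - v^m`, a multiple of `x - u`, ... or by A2, A5 and counting) and `relNorm (x - u) = (X - u)^m`; if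
`v = 0`, `ptI q ^ m = (x - u)` up to factors prime to it. (`Ideal.relNorm_algebraMap`, `relNorm_singleton`,
`Algebra.intNorm_eq_norm`.) Beware: `FractionRing K[X]` is not perfect, so `relNorm_eq_pow_of_isMaximal` does not apply
(`relNorm_eq_pow_of_isPrime_isGalois` may). Then multiplicativity. Uses A1 - A5. -/
def A6_stmt : Prop := ∀ (K : Type) [Field K] [IsAlgClosed K] (n m : ℕ) [NeZero n] [NeZero m]
  [NeZero (n : K)] [NeZero (m : K)] (f : FR K n m) (S : Multiset (Pt K n m)),
  f ≠ 0 → Ideal.span {f} = dvI S → ∃ c : K, c ≠ 0 ∧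
    Algebra.norm K[X] f = C c * (S.map fun q => X - C q.1.1).prod

/-- the class of a point -/
def cl {K : Type} [Field K] {n m : ℕ} [NeZero n] [NeZero m] [NeZero (n : K)] [IsDedekindDomain (FR K n m)]
    (q : Pt K n m) : ClassGroup (FR K n m) :=
  ClassGroup.mk0 ⟨ptI q, by
    have hm : m ≠ 0 := NeZero.ne m
    have hx : (FR.x : FR K n m) - algebraMap K _ q.1.1 ∈ ptI q := by
      show ev q _ = 0
      have h1 : ev q (FR.x : FR K n m) = q.1.1 := FR.lift_x _ _ _ _
      have h2 : ev q (algebraMap K (FR K n m) q.1.1) = q.1.1 := FR.lift_C _ _ _ _ _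
      rw [map_sub, h1, h2, sub_self]
    have hne : (FR.x : FR K n m) - algebraMap K _ q.1.1 ≠ 0 := by
      have h3 : (FR.x : FR K n m) - algebraMap K _ q.1.1 =
          AdjoinRoot.of (fpol K n m) (X - C q.1.1) := (map_sub (AdjoinRoot.of (fpol K n m)) X (C q.1.1)).symm
      rw [h3]
      have hinj : Function.Injective (AdjoinRoot.of (fpol K n m)) := by
        refine AdjoinRoot.of.injective_of_degree_ne_zero ?_
        rw [Polynomial.degree_eq_natDegree (FR.fpol_monic K n m hm).ne_zero]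
        have hd : (fpol K n m).natDegree = m := natDegree_X_pow_sub_C
        rw [hd]
        exact_mod_cast hm
      intro h4
      exact X_sub_C_ne_zero q.1.1 (hinj (h4.trans (map_zero _).symm))
    rw [mem_nonZeroDivisors_iff_ne_zero]
    intro h
    rw [h] at hx
    exact hne ((Submodule.mem_bot _).1 hx)⟩

/-- A7: automorphisms and generators. First part: `ClassGroup.mulEquiv e (mk0 I) = mk0 (I.map e)` for a ring isomorphism `e` of
Dedekind domains (unfold through `FractionalIdeal`, `ClassGroup.equiv_mk0`), and `(ptI q).map (FR.aut σ s t)` is the ideal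
of `(s σ u, t σ v)` (A1: generators). Second part: products of classes of points (A5, `ClassGroup.mk0_surjective`). Third:
composition (from the first two). Uses A1, A4, A5. -/
def A7_stmt : Prop := ∀ (K : Type) [Field K] [IsAlgClosed K] (m : ℕ) [NeZero m] [NeZero (m : K)]
  [IsDedekindDomain (FR K m m)],
  (∀ (σ : K ≃+* K) (s t : rootsOfUnity m K) (q q' : Pt K m m),
    q'.1.1 = ((s : Kˣ) : K) * σ q.1.1 → q'.1.2 = ((t : Kˣ) : K) * σ q.1.2 →
    ClassGroup.mulEquiv (FR.aut σ s t) (cl q) = cl q') ∧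
  (∀ c : ClassGroup (FR K m m), ∃ S : Multiset (Pt K m m), c = (S.map cl).prod) ∧
  (∀ S : Multiset (Pt K m m), (S.map cl).prod = 1 ↔ ∃ f, dvI S = Ideal.span {f}) ∧
  (∀ (s t s' t' : rootsOfUnity m K) (c : ClassGroup (FR K m m)),
    ClassGroup.mulEquiv (FR.aut (RingEquiv.refl K) s t)
      (ClassGroup.mulEquiv (FR.aut (RingEquiv.refl K) s' t') c) =
    ClassGroup.mulEquiv (FR.aut (RingEquiv.refl K) (s * s') (t * t')) c) ∧
  ∀ c : ClassGroup (FR K m m), ClassGroup.mulEquiv (FR.aut (RingEquiv.refl K) 1 1) c = c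

/-! ## B. Specialisation. `O` a valuation ring of an algebraically closed field, `k` its residue field -/

section B
variable {K : Type} [Field K] (O : ValuationSubring K)

/-- the residue field -/
abbrev rf : Type := IsLocalRing.ResidueField O

/-- the reduction -/
abbrev rs : O →+* rf O := IsLocalRing.residue O

open Classical in
/-- reduction of points: `none` if the point has non integral coordinates (it reduces to a point at infinity) -/
def red {n m : ℕ} (q : Pt K n m) : Option (Pt (rf O) n m) :=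
  if h : q.1.1 ∈ O ∧ q.1.2 ∈ O then
    some (mapPt (rs O) ⟨(⟨q.1.1, h.1⟩, ⟨q.1.2, h.2⟩), Subtype.ext q.2⟩) else none

/-- the class of the reduction of a point -/
def clo {k : Type} [Field k] {n m : ℕ} [NeZero n] [NeZero m] [NeZero (n : k)]
    [IsDedekindDomain (FR k n m)] : Option (Pt k n m) → ClassGroup (FR k n m)
  | none => 1
  | some q => cl q

/-- `sp` is the specialisation homomorphism -/
def IsSp {n m : ℕ} [NeZero n] [NeZero m] [NeZero (n : K)] [NeZero (n : rf O)]
    [IsDedekindDomain (FR K n m)] [IsDedekindDomain (FR (rf O) n m)]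
    (sp : ClassGroup (FR K n m) →* ClassGroup (FR (rf O) n m)) : Prop :=
  ∀ q : Pt K n m, sp (cl q) = clo (red O q)

end B

/-- B1: (a) the residue field is algebraically closed (lift a monic polynomial; its roots are integral, so in `O`);
(b) `O` contains `u` iff it contains `v`, for points `(u, v)` (`O` is integrally closed). -/
def B1_stmt : Prop := ∀ (K : Type) [Field K] [IsAlgClosed K] (O : ValuationSubring K),
  IsAlgClosed (rf O) ∧ ∀ (n m : ℕ) [NeZero n] [NeZero m] (q : Pt K n m), q.1.1 ∈ O ↔ q.1.2 ∈ O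

/-- B2: semicontinuity. Claim by induction on `S`: for `f ∈ FR O n m` and `c ∈ O`, `c ≠ 0`, `c f ∈ ∏ ptI q` implies
`f ∈ ∏ ptI q` (products in `FR O n m`). Step: `c f ∈ I' * ptI q`; `ptI q * J = (g)`, `g` no zero divisor (A1, A2: `O` is
local); evaluation at `q`: `c f(q) = 0` so `f ∈ ptI q`; for `h ∈ J`: `f h = g f_h`, `c f_h g = c f h ∈ I' (g)` so
`c f_h ∈ I'`, `f_h ∈ I'` by induction; so `f J ≤ g I'`, `f g ∈ f J ptI q ≤ g I' ptI q`, `f ∈ I' ptI q`. If
`map f ∈ ∏ ptI (mapPt ..)` in `FR K n m` then `c f ∈ ∏ ptI q` for some `c ≠ 0` (the ideal of `FR K n m` is generated by the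
image of `∏ ptI q`, clear denominators; `FR O n m → FR K n m` is injective). Then reduce modulo the maximal ideal:
the image of `ptI q` is in `ptI (mapPt (rs O) q)`. Uses A1, A2. -/
def B2_stmt : Prop := ∀ (K : Type) [Field K] (O : ValuationSubring K) (n m : ℕ) [NeZero n] [NeZero m]
  [NeZero (n : rf O)] [NeZero (m : rf O)] (S : Multiset (Pt O n m)) (f : FR O n m),
  FR.map O.subtype f ∈ dvI (S.map (mapPt O.subtype)) → FR.map (rs O) f ∈ dvI (S.map (mapPt (rs O)))

open Classical in
/-- B3: Gauss. `h = c ∏ (X - u)`; the factors with `u ∉ O` are `-u (1 - u⁻¹ X)` with `u⁻¹` in the maximal ideal. With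
`c' = c ∏_{u ∉ O} (-u)`: `h = c' ∏_{u ∈ O} (X - u) ∏_{u ∉ O} (1 - u⁻¹ X)`; both products have coefficients in `O` and nonzero
reduction, so `c' ∈ O` is a unit (`h` has coefficients in `O` and nonzero reduction). -/
def B3_stmt : Prop := ∀ (K : Type) [Field K] (O : ValuationSubring K) (h : O[X]) (c : K)
  (R : Multiset K), h.map (rs O) ≠ 0 → h.map O.subtype = C c * (R.map fun u => X - C u).prod →
  ∃ R' : Multiset O, R'.map (fun u : O => (u : K)) = R.filter (fun u => u ∈ O) ∧ ∃ c' : rf O, c' ≠ 0 ∧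
    h.map (rs O) = C c' * (R'.map fun u => X - C (rs O u)).prod

/-- B4: the divisor of the reduction. `S' = S.filterMap (red O)`. `map (rs O) f ∈ dvI S'` by B2 (the integral points of `S`). The norm
of `f` (in `FR O n m`, free over `O[X]` with basis `y^j`) is compatible with the maps to `K` and `k`
(`Algebra.norm_eq_matrix_det`, `FR.fpol_monic`), so by A6 and B3 the degree of the norm of `map (rs O) f` is the number of
the integral points of `S` (B1), which is `card S'`; by A6 it is `card T` where `span {map f} = dvI T`, `S' ≤ T` (A5), so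
`T = S'`. Uses A5, A6, B1, B2, B3. -/
def B4_stmt : Prop := ∀ (K : Type) [Field K] [IsAlgClosed K] (O : ValuationSubring K) (n m : ℕ)
  [NeZero n] [NeZero m] [NeZero (n : K)] [NeZero (m : K)] [NeZero (n : rf O)] [NeZero (m : rf O)]
  (f : FR O n m) (S : Multiset (Pt K n m)), FR.map (rs O) f ≠ 0 →
  Ideal.span {FR.map O.subtype f} = dvI S → Ideal.span {FR.map (rs O) f} = dvI (S.filterMap (red O))

/-- B5: normalisation: divide by the coefficient of `x^i y^j` (`j < m`) of largest valuation. -/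
def B5_stmt : Prop := ∀ (K : Type) [Field K] (O : ValuationSubring K) (n m : ℕ) [NeZero m]
  (f : FR K n m), f ≠ 0 → ∃ (c : K) (f0 : FR O n m), c ≠ 0 ∧ FR.map (rs O) f0 ≠ 0 ∧
    f = algebraMap K _ c * FR.map O.subtype f0

/-- B6: the specialisation homomorphism exists. For a nonzero ideal `I = dvI S` put `s(I) = ∏_{q ∈ S} clo (red q)`
(multiplicative, A5); `s((f)) = 1` by B5, B4; so it depends only on the class (`ClassGroup.mk0_eq_mk0_iff`). Uses A5, A7, B4, B5. -/
def B6_stmt : Prop := ∀ (K : Type) [Field K] [IsAlgClosed K] (O : ValuationSubring K) (m : ℕ)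
  [NeZero m] [NeZero (m : K)] [NeZero (m : rf O)] [IsDedekindDomain (FR K m m)]
  [IsDedekindDomain (FR (rf O) m m)],
  ∃ sp : ClassGroup (FR K m m) →* ClassGroup (FR (rf O) m m), IsSp O sp

/-! ## C. Nontriviality. `n = m` -/

/-- C1: the `m`-th root of `1 - s^m`. (Construct the coefficients recursively, or Hensel for power series, or the
binomial series; uniqueness is not needed.) -/
def C1_stmt : Prop := ∀ (K : Type) [Field K] (m : ℕ) [NeZero m] [NeZero (m : K)],
  ∃ w : PowerSeries K, PowerSeries.constantCoeff w = 1 ∧ w ^ m = 1 - PowerSeries.X ^ m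

/-- the directions of the points at infinity -/
abbrev Eps (K : Type) [Field K] (m : ℕ) : Type := {e : K // e ^ m = -1}

/-- expansion at the point at infinity `e`: `x = s⁻¹`, `y = e s⁻¹ w(s)` -/
def lau {K : Type} [Field K] {m : ℕ} [NeZero m] (w : PowerSeries K) (hw : w ^ m = 1 - PowerSeries.X ^ m)
    (e : Eps K m) : FR K m m →+* LaurentSeries K :=
  FR.lift (HahnSeries.C : K →+* LaurentSeries K) (HahnSeries.single (-1 : ℤ) (1 : K))
    (HahnSeries.single (-1 : ℤ) (e : K) * HahnSeries.ofPowerSeries ℤ K w) (by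
      have h0 : (HahnSeries.single (-1 : ℤ) (1 : K) : LaurentSeries K) ^ m =
          HahnSeries.single (-(m : ℤ)) 1 := by
        rw [HahnSeries.single_pow]
        simp
      have h1 : (HahnSeries.single (-1 : ℤ) (e : K) : LaurentSeries K) ^ m =
          HahnSeries.single (-(m : ℤ)) (-1) := by
        rw [HahnSeries.single_pow, e.2]
        simp
      have h2 : (HahnSeries.ofPowerSeries ℤ K w) ^ m = 1 - HahnSeries.single (m : ℤ) (1 : K) := by
        rw [← map_pow (HahnSeries.ofPowerSeries ℤ K) w m, hw, map_sub, map_one,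
          map_pow (HahnSeries.ofPowerSeries ℤ K) PowerSeries.X m, HahnSeries.ofPowerSeries_X,
          HahnSeries.single_pow]
        simp
      rw [mul_pow, h0, h1, h2, mul_sub, mul_one, HahnSeries.single_mul_single]
      simp)

/-- the pole order at `e` -/
def dg {K : Type} [Field K] {m : ℕ} [NeZero m] (w : PowerSeries K) (hw : w ^ m = 1 - PowerSeries.X ^ m)
    (e : Eps K m) (f : FR K m m) : ℤ := -(lau w hw e f).order

/-- the elements of total degree at most `B` -/
def VB (K : Type) [Field K] (m B : ℕ) : Submodule K (FR K m m) :=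
  Submodule.span K {z | ∃ i j : ℕ, i + j ≤ B ∧ z = FR.x ^ i * FR.y ^ j}

/-- C2: the sum of the pole orders. `∏_e lau e f` is the image of `Algebra.norm K[X] f` under `X ↦ s⁻¹` (the `lau e` are the `m`
different embeddings over `K[X]`: `FR` is free with basis `y^j`; the polynomial `Y^m - (1 - x^m)` has the `m` different roots
`lau e y` in `K((s))`; `Algebra.norm_eq_prod_embeddings` in an algebraic closure of `K((s))`, or resultants, or
`Algebra.norm_eq_prod_roots`), and `X ↦ s⁻¹` maps a polynomial of degree `N` to a series of order `-N`.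
`Eps K m` is finite with `m` elements. -/
def C2_stmt : Prop := ∀ (K : Type) [Field K] [IsAlgClosed K] (m : ℕ) [NeZero m] [NeZero (m : K)]
  (w : PowerSeries K) (hw : w ^ m = 1 - PowerSeries.X ^ m), PowerSeries.constantCoeff w = 1 →
  Nat.card (Eps K m) = m ∧ ∀ f : FR K m m, f ≠ 0 → (∀ e, lau w hw e f ≠ 0) ∧
    ∑ᶠ e, dg w hw e f = ((Algebra.norm K[X] f).natDegree : ℤ)

/-- C3: pole orders and total degree. `f = ∑_{j<m} c_j(x) y^j`; `∑_e lau e f * (lau e y)^(-j) = m c_j(s⁻¹)` since
`∑_e e^(i-j) = 0` for `i ≠ j`, `i, j < m`; so `deg c_j ≤ B - j`. Conversely `dg e (x^i y^j) = i + j`. (For `f = 0`: `dg = 0`.) -/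
def C3_stmt : Prop := ∀ (K : Type) [Field K] [IsAlgClosed K] (m : ℕ) [NeZero m] [NeZero (m : K)]
  (w : PowerSeries K) (hw : w ^ m = 1 - PowerSeries.X ^ m), PowerSeries.constantCoeff w = 1 →
  ∀ (B : ℕ) (f : FR K m m), f ∈ VB K m B ↔ ∀ e, dg w hw e f ≤ B

/-- C4: units. `u_e = y - e x` is a unit (`∏_e (y - e x) = y^m + x^m = 1`), `dg e u_e = 1 - m`
(`w - 1 = - s^m / m + ...`), `dg e' u_e = 1` for `e' ≠ e`. If `(g) = dvI S`, `d = card S = ∑ dg e g` (C2, A6), then
`f = g^m ∏_e u_e^(dg e g - N) ` (for a large `N` replace by inverses; units form a group) has `dg e f = d` for all `e`, because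
`∏_e u_e = 1`: `m c_e' + ∑_e c_e (1 - m δ_{e e'}) = ∑ c_e = d`. So `f ∈ VB d` (C3). Uses A5, A6, C1, C2, C3. -/
def C4_stmt : Prop := ∀ (K : Type) [Field K] [IsAlgClosed K] (m : ℕ) [NeZero m] [NeZero (m : K)]
  (S : Multiset (Pt K m m)) (g : FR K m m), Ideal.span {g} = dvI S →
  ∃ f ∈ VB K m (Multiset.card S), Ideal.span {f} = dvI S ^ m

/-- C5: degree of a quotient. `dg e b = dg e f + dg e a - dg e g`, `∑_e dg e g ≥ 0` (C2), `dg e g ≤ Bg` (C3). And the degree of
the norm of `f ∈ VB B` is at most `m B` (C2, C3). Uses C1, C2, C3. -/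
def C5_stmt : Prop := ∀ (K : Type) [Field K] [IsAlgClosed K] (m : ℕ) [NeZero m] [NeZero (m : K)]
  (Bf Ba Bg : ℕ) (f a g b : FR K m m), f ∈ VB K m Bf → a ∈ VB K m Ba → g ∈ VB K m Bg →
  ((Algebra.norm K[X] f).natDegree ≤ m * Bf) ∧
  (g ≠ 0 → f * a = g * b → b ∈ VB K m (Bf + Ba + m * Bg))

/-- C6: integrality and linear algebra over `ℚbar`. (a) algebraic numbers are integral outside finitely many primes
(`exists_integral_multiple`; `O` is integrally closed). (b) An injective matrix has a left inverse involving finitely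
many rows (`ρ` may be infinite); its entries are integral for almost all `O` by (a); reduce. -/
def C6_stmt : Prop :=
  (∀ x : AlgebraicClosure ℚ, ∃ D : ℕ, 0 < D ∧ ∀ O : ValuationSubring (AlgebraicClosure ℚ),
    ((D : ℕ) : rf O) ≠ 0 → x ∈ O) ∧
  ∀ (ρ : Type) (N : ℕ) (M : ρ → Fin N → AlgebraicClosure ℚ),
    (∀ z : Fin N → AlgebraicClosure ℚ, (∀ i, ∑ j, M i j * z j = 0) → z = 0) →
    ∃ D : ℕ, 0 < D ∧ ∀ O : ValuationSubring (AlgebraicClosure ℚ), ((D : ℕ) : rf O) ≠ 0 →
      ∀ M' : ρ → Fin N → O, (∀ i j, (M' i j : AlgebraicClosure ℚ) = M i j) →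
      ∀ z : Fin N → rf O, (∀ i, ∑ j, rs O (M' i j) * z j = 0) → z = 0

/-- C7: the linear system in abstract form. `g`, `a_1, .., a_r` elements of `FR ℚbar m m`, `B`, `B'`; assume that
`f ∈ VB B`, `b_i ∈ VB B'`, `f a_i = g b_i` for all `i` is only possible for `f = 0`, and `g ≠ 0`. Then the same holds for the
reductions at almost all `O`. Proof: unknowns: the coefficients of `f`, `b_i` for the monomials `x^i y^j`, `j < m`, `i + j ≤ B`
(`≤ B'`), equations: the coefficients (`AdjoinRoot.powerBasis'` over `O[X]`) of `f a_i - g b_i`; C6 (b). Entries are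
natural in the coefficient ring. (Over `k`: `f = 0` by C6.) Uses C6. -/
def C7_stmt : Prop := ∀ (m : ℕ) [NeZero m] (B B' r : ℕ) (g : FR (AlgebraicClosure ℚ) m m)
  (a : Fin r → FR (AlgebraicClosure ℚ) m m), g ≠ 0 →
  (∀ (f : FR (AlgebraicClosure ℚ) m m) (b : Fin r → FR (AlgebraicClosure ℚ) m m),
    f ∈ VB _ m B → (∀ i, b i ∈ VB _ m B') → (∀ i, f * a i = g * b i) → f = 0) →
  ∃ D : ℕ, 0 < D ∧ ∀ O : ValuationSubring (AlgebraicClosure ℚ), ((D : ℕ) : rf O) ≠ 0 →
    ∃ (g' : FR O m m) (a' : Fin r → FR O m m), FR.map O.subtype g' = g ∧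
      (∀ i, FR.map O.subtype (a' i) = a i) ∧ FR.map (rs O) g' ≠ 0 ∧
      ∀ (f : FR (rf O) m m) (b : Fin r → FR (rf O) m m), f ∈ VB _ m B → (∀ i, b i ∈ VB _ m B') →
        (∀ i, f * FR.map (rs O) (a' i) = FR.map (rs O) g' * b i) → f = 0

/-- C8: a class with `c^m ≠ 1` does not specialise to `1` at almost all `O`. `c = ∏ cl q`, `q ∈ S` (A7), `J = dvI S ^ m = dvI (m • S)`
is not principal; `J * J' = (g)`, `J' = dvI T` generated by `a_1, .., a_r` (noetherian), all in `VB B_1` (every element is in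
some `VB`, C3), `B = card S`, `B' = B + B_1 + m B_1`. Over `ℚbar`: `f ∈ VB B`, `f a_i = g b_i`: `f J' ≤ (g) = J J'`, so `f ∈ J`;
if `f ≠ 0` then `(f) = dvI T'`, `m • S ≤ T'`, `card T' = deg norm f ≤ m card S` (A6, C5), so `(f) = J`, a contradiction. C7
gives `D`, `g'`, `a'`; enlarge `D` so that `m` is a unit and all coordinates of the points of `S`, `T` and of the zeros of `g` are
integral (C6). If `sp c = 1`: the reduction `S'` of `S` has `dvI S'` principal (A7), so by C4 there is `f ∈ VB B` with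
`(f) = dvI S' ^ m`; `(map g') = dvI (m • S' + T')`, `T'` the reduction of `T` (B4: `(g) = dvI (m • S + T)`), `map a'_i ∈ dvI T'` (B2), so
`f map a'_i = map g' b_i`, `b_i ∈ VB B'` by C5: `f = 0`, a contradiction. Uses A5, A6, A7, B2, B4, C3 - C7. -/
def C8_stmt : Prop := ∀ (m : ℕ) [NeZero m] [IsDedekindDomain (FR (AlgebraicClosure ℚ) m m)]
  (c : ClassGroup (FR (AlgebraicClosure ℚ) m m)), c ^ m ≠ 1 →
  ∃ D : ℕ, 0 < D ∧ ∀ O : ValuationSubring (AlgebraicClosure ℚ), ((D : ℕ) : rf O) ≠ 0 →
    ∀ [NeZero (m : rf O)] [IsDedekindDomain (FR (rf O) m m)]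
      (sp : ClassGroup (FR (AlgebraicClosure ℚ) m m) →* ClassGroup (FR (rf O) m m)),
      IsSp O sp → sp c ≠ 1

/-! ## D. Coleman's relation in characteristic `p` -/

/-- D1: the norm along `x ↦ x^α`. `R = FR K m m → R' = FR K (m α) m`, `x ↦ x^α`, `y ↦ y`, is injective, `R'` is free over `R` with
basis `1, x, .., x^(α-1)`; `N = Ideal.relNorm R` (both are Dedekind, A4). Let `τ ≠ 0`; the ideal of
`(τ^α, ω)` generates in `R'` the product of the `α` ideals of `(ζ τ, ω)`, `ζ^α = 1` (A5: it is the ideal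
`(x^α - τ^α, y - ω)`), which have the same norm (`Ideal.relNorm_map_algEquiv` for `x ↦ ζ x`), and `relNorm_algebraMap`: the norm of
the extension of `P` is `P^α`; so the norm of each is `P`. Uses A1, A3, A4, A5. -/
def D1_stmt : Prop := ∀ (K : Type) [Field K] [IsAlgClosed K] (m α : ℕ) [NeZero m] [NeZero α]
  [NeZero (m : K)] [NeZero (α : K)],
  ∃ N : Ideal (FR K (m * α) m) →* Ideal (FR K m m),
    (∀ f : FR K (m * α) m, f ≠ 0 → ∃ g : FR K m m, g ≠ 0 ∧ N (Ideal.span {f}) = Ideal.span {g}) ∧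
    ∀ (q : Pt K (m * α) m) (q' : Pt K m m), q.1.1 ≠ 0 → q'.1.1 = q.1.1 ^ α → q'.1.2 = q.1.2 →
      N (ptI q) = ptI q'

/-- D2: the polynomial identity (polynomials in `t`, `s ∈ K`, characteristic `p`):
`s t^(p-1) + (1-s) (1-t)^(p-1) - 1 = (t - s) ∏_{a=2}^{p-1} (t - a)`. Multiply by `t (t - 1)`:
`(t - s) (t^p - t)` on both sides. -/
def D2_stmt : Prop := ∀ (K : Type) [Field K] (p : ℕ) [Fact p.Prime] [CharP K p] (s : K),
  (C s * X ^ (p - 1) + C (1 - s) * (1 - X) ^ (p - 1) - 1 : K[X]) =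
    (X - C s) * ∏ a ∈ Finset.Ico 2 p, (X - C (a : K))

/-- D3: the divisor of Coleman's function `f = v (1 - x/τ)^α - y` on `x^(mα) + y^m = 1`, `m α = p - 1`, `s = τ^(p-1)`, `v^m = 1 - s`.
All factors `ptI q` contain `f` and `x/τ - a` (`x/τ - s`), so their product is in `(f, ∏ (x/τ - a) (x/τ - s))`, and this product
is `± s (x/τ)^(p-1) + (1-s) (1-x/τ)^(p-1) - 1 ≡ x^(mα) + y^m - 1 = 0` modulo `f` (D2: `y = v (1 - x/τ)^α`). So `dvI T ≤ (f)`, `T` the
`p - 1` points; `(f) = dvI S`, `S ≤ T` and `card S = p - 1` because the norm of `f` to `K[X]` has degree `p - 1` (it is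
`± (v^m (1 - x/τ)^(p-1) - (1 - x^(p-1)))` with leading coefficient `± 1 / s`; A6). Uses A5, A6, D2. -/
def D3_stmt : Prop := ∀ (K : Type) [Field K] [IsAlgClosed K] (p m α : ℕ) [Fact p.Prime] [CharP K p]
  [NeZero m] [NeZero α] [NeZero (m : K)] [NeZero (α : K)], m * α = p - 1 → ∀ (τ v : K), τ ≠ 0 → v ≠ 0 →
  τ ^ (m * α) + v ^ m = 1 →
  ∃ (Q : ℕ → Pt K (m * α) m) (Q0 : Pt K (m * α) m),
    (∀ a ∈ Finset.Ico 2 p, (Q a).1 = ((a : K) * τ, (1 - (a : K)) ^ α * v)) ∧
    Q0.1 = (τ ^ (m * α) * τ, (v ^ m) ^ α * v) ∧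
    Ideal.span {algebraMap K (FR K (m * α) m) v *
      (1 - algebraMap K (FR K (m * α) m) τ⁻¹ * FR.x) ^ α - FR.y} =
      ptI Q0 * ∏ a ∈ Finset.Ico 2 p, ptI (Q a)

/-- D4: points with `u = 0` or `v = 0`. `u = 0`: `v^m = 1`, `v^p = v`; with the term `a = 0`... the points are `(0, b^α v)`, `b = 1 - a`,
`b ∈ {2, .., p-1}` (`∏` over `𝔽_p` minus `0, 1`), and `(0, v^p) = (0, v)` is the term `b = 1`; `b^α` runs `α` times through the `m`-th
roots of unity, and the product of the ideals of `(0, t)`, `t^m = 1`, is `(x)`. `v = 0` by symmetry. Uses A1, A5, A7. -/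
def D4_stmt : Prop := ∀ (K : Type) [Field K] [IsAlgClosed K] (p m α : ℕ) [Fact p.Prime] [CharP K p]
  [NeZero m] [NeZero (m : K)] [IsDedekindDomain (FR K m m)], m * α = p - 1 →
  ∀ (q q' : Pt K m m) (Q : ℕ → Pt K m m), (q.1.1 = 0 ∨ q.1.2 = 0) →
    q'.1 = (q.1.1 ^ p, q.1.2 ^ p) →
    (∀ a ∈ Finset.Ico 2 p, (Q a).1 = ((a : K) ^ α * q.1.1, (1 - (a : K)) ^ α * q.1.2)) →
    cl q' * ∏ a ∈ Finset.Ico 2 p, cl (Q a) = 1

/-- D5: Coleman's relation. `q = (u, v)`; `u v ≠ 0` (else D4); `τ` with `τ^α = u`; apply `N` (D1) to the factorisation of D3: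
`(a τ)^α = a^α u`, `(τ^(mα) τ)^α = u^(mα) u = u^p`, `(v^m)^α v = v^p`. Uses D1, D3, D4. -/
def D5_stmt : Prop := ∀ (K : Type) [Field K] [IsAlgClosed K] (p m α : ℕ) [Fact p.Prime] [CharP K p]
  [NeZero m] [NeZero (m : K)] [IsDedekindDomain (FR K m m)], m * α = p - 1 →
  ∀ (q q' : Pt K m m) (Q : ℕ → Pt K m m), q'.1 = (q.1.1 ^ p, q.1.2 ^ p) →
    (∀ a ∈ Finset.Ico 2 p, (Q a).1 = ((a : K) ^ α * q.1.1, (1 - (a : K)) ^ α * q.1.2)) →
    cl q' * ∏ a ∈ Finset.Ico 2 p, cl (Q a) = 1

end

end Pool.Agent.FJ
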