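import Pool.Agent.helper39.FJ.Ring
import Pool.Agent.helper39.SJ.TQDefs

/-!
# Project fj: the Tate conjecture for products of Fermat curves: the statement

`Om = ℚbar`.  `Jac Om m = ∏ ClassGroup (ℚbar[x, y] / (x^(m_i) + y^(m_i) - 1))` is the group of `ℚbar`-points of the product of
the Jacobians `J_i` of the Fermat curves `C_i : x^(m_i) + y^(m_i) = 1`, modulo a finite group;
`VT l (Jac Om m)` is the rational Tate module `V_l(∏ J_i)`, the Galois group acts on the coefficients of the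
ideals.  `W = ∏ ℂ^{(b, c) : b, c > 0, b + c < m_i}`; the pair `(s, t)` of `m_i`-th roots of unity acts on the coordinate
`(b, c)` by `s^b t^c`, as the automorphism `(x, y) ↦ (s x, t y)` acts on the integrals of the holomorphic differentials
`x^(b-1) y^(c-m_i) dx`; so `H_1(∏ C_i(ℂ), ℤ)` is a lattice `Lam` in `W` stable under this action, `W ⧸ Lam = ∏ J_i(ℂ)`, and the
comparison isomorphism `c : V_l(∏ J_i) ≅ ℚ_l ⊗ Lam` commutes with it.
-/

namespace Pool.Agent.FJ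

open Pool.Agent.HC Pool.Agent.SJ
open scoped TensorProduct

noncomputable section

/-- the field of all algebraic numbers -/
abbrev Om : Type := AlgebraicClosure ℚ

/-- the holomorphic differentials `x^(b-1) y^(c-m) dx` of the Fermat curve of degree `m` -/
abbrev Hol (m : ℕ) : Type :=
  {p : Fin m × Fin m // 0 < (p.1 : ℕ) ∧ 0 < (p.2 : ℕ) ∧ (p.1 : ℕ) + (p.2 : ℕ) < m}

/-- the index set of the coordinates of `W = ∏ Lie J_i` -/
abbrev Idx {r : ℕ} (m : Fin r → ℕ) : Type := Σ i : Fin r, Hol (m i)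

/-- the action of roots of unity on `W`, for an embedding `ι` of `ℚbar` in `ℂ` -/
def actC {r : ℕ} {m : Fin r → ℕ} (ι : Om →+* ℂ) (g : Tup Om m) : (Idx m → ℂ) →ₗ[ℂ] (Idx m → ℂ) :=
  LinearMap.pi fun j =>
    (ι (((g j.1).1 : Omˣ) : Om) ^ (j.2.1.1 : ℕ) * ι (((g j.1).2 : Omˣ) : Om) ^ (j.2.1.2 : ℕ)) •
      LinearMap.proj j

/-- the `l`-adic cyclotomic character -/
def chiO (l : ℕ) [Fact l.Prime] (σ : Om ≃+* Om) : ℚ_[l] :=
  (((cyclotomicCharacter Om l σ : ℤ_[l]ˣ) : ℤ_[l]) : ℚ_[l])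

/-- `Ξ ∈ H_{2a}(W ⧸ Lam, ℚ_l)` is a `ℚ_l`-linear combination of (positive multiples, which are integral, of)
classes of holomorphic maps of compact ball quotients of dimension `a` to `W ⧸ Lam` -/
def IsBQL {W : Type} [NormedAddCommGroup W] [NormedSpace ℂ W] (Lam : AddSubgroup W) (l : ℕ)
    [Fact l.Prime] (a : ℕ) (Ξ : ExteriorAlgebra ℚ_[l] (VQ Lam l)) : Prop :=
  Ξ ∈ Submodule.span ℚ_[l] {y | ∃ (c : ExteriorAlgebra ℤ Lam) (n : ℕ) (M : BallQuotient a)
    (f : (Fin a → ℂ) → W), 0 < n ∧ IsMap M Lam f ∧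
      IsClass (fun η => (n : ℝ) * cls M f η) (toR Lam c) ∧ y = toQ Lam l c}

/-- THE THEOREM: the Tate conjecture in all degrees for products of Jacobians of Fermat curves. -/
def TateFermat_stmt : Prop :=
  ∀ (r : ℕ) (m : Fin r → ℕ) [∀ i, NeZero (m i)], (∀ i, 3 ≤ m i) →
  ∀ (ι : Om →+* ℂ) (Lam : AddSubgroup (Idx m → ℂ)), IsLattice Lam →
  ∀ (hst : ∀ g : Tup Om m, ∀ w ∈ Lam, actC ι g w ∈ Lam) (l : ℕ) [Fact l.Prime]
    (c : VT l (Jac Om m) →ₗ[ℚ_[l]] VQ Lam l),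
    (∀ (g : Tup Om m) (v : VT l (Jac Om m)), c (VT.map l (act (RingEquiv.refl Om) g) v) =
      indQ l (resL (actC ι g) (hst g)) (c v)) →
  ∀ (F : IntermediateField ℚ Om) [FiniteDimensional ℚ F] (a : ℕ)
    (X : ExteriorAlgebra ℚ_[l] (VT l (Jac Om m))),
    X ∈ (⋀[ℚ_[l]]^(2 * a) (VT l (Jac Om m)) :
      Submodule ℚ_[l] (ExteriorAlgebra ℚ_[l] (VT l (Jac Om m)))) →
    (∀ σ : Om ≃ₐ[F] Om, ExteriorAlgebra.map (VT.map l (act σ.toRingEquiv (1 : Tup Om m))) X =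
      chiO l σ.toRingEquiv ^ a • X) →
    IsBQL Lam l a (ExteriorAlgebra.map c X)

end

end Pool.Agent.FJ
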