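import Pool.Agent.helper39.FJ.SpecA
import Pool.Agent.helper39.FJ.Defs
import Pool.Agent.helper39.SJ.TQSpec
import Pool.Agent.helper34.SJ.P3Spec
import Pool.Agent.helper89.HC.SpecSA

/-!
# Project fj: specification, parts E - H (arithmetic, Tate modules, complex tori, assembly)

Rules: see `SpecA.lean`. Available without being hypotheses of the project: `Pool.Agent.SJ` statements `TQA1 .. TQA4`, `TQB1`,
`KND`, `KHP`, `KL0`, `Pool.Agent.HC.SJ3` `QH`, `QC`, `QG`, `HC.SA1 .. SA7`, `HodgeCM_stmt`, all of which are proved: they may be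
hypotheses of a module.
-/

namespace Pool.Agent.FJ

open Polynomial Pool.Agent.HC Pool.Agent.SJ
open scoped TensorProduct NumberField ComplexConjugate
open NumberField

noncomputable section

/-! ## E. Arithmetic -/

/-- `σ` respects `O` and is the `p`-th power on the residue field -/
def IsFrobO (O : ValuationSubring Om) (σ : Om ≃+* Om) (p : ℕ) : Prop :=
  ∀ x : O, ∃ y : O, (y : Om) = σ (x : Om) ∧ rs O y = rs O x ^ p

/-- E1: primes of degree one (from `HC.SA3`, `HC.SA5`; `M` = any bound). -/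
def E1_stmt : Prop := ∀ (L : Type) [Field L] [NumberField L] (M : ℕ), 0 < M →
  ∃ (p : ℕ) (P : Ideal (𝓞 L)), p.Prime ∧ ¬ p ∣ M ∧ P.IsPrime ∧ P ≠ ⊥ ∧ Ideal.absNorm P = p

/-- E2: places and Frobenius elements. `Z` = `integralClosure ℤ Om`, `G = Gal(Om/L)`; as in the proof of TTG1
(`Pool/Agent/helper97/HC/TTG1.lean`: `TTG1_main` applies): a prime `Q` of `Z` over `P`, `σ ∈ G` with `σ x ≡ x^N(P)` modulo `Q`. `O` = a
valuation ring dominating `Z` at `Q` (`LocalSubring.exists_le_valuationSubring` or `Ideal.image_subset_nonunits_valuationSubring`);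
then `O = {a / b | a, b ∈ Z, b ∉ Q}`: for `x ∈ O` let `E = ℚ(x)`; `O ∩ E` contains the localisation of `𝓞 E` at `Q ∩ 𝓞 E`, a
discrete valuation ring, and is not `E`. (If `Q ∩ 𝓞 E`... is nonzero since `p ∈ Q`.) So `σ O = O` and `σ` is `x ↦ x^N(P)` on the
residue field (`b` and `σ b` are units). -/
def E2_stmt : Prop := ∀ (L : IntermediateField ℚ Om) [NumberField L] (P : Ideal (𝓞 L)),
  P.IsPrime → P ≠ ⊥ → ∃ (O : ValuationSubring Om) (σ : Om ≃ₐ[L] Om),
    IsFrobO O σ.toRingEquiv (Ideal.absNorm P) ∧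
    ∀ x : 𝓞 L, ∃ y : O, (y : Om) = ((x : L) : Om) ∧ (rs O y = 0 ↔ x ∈ P)

/-- E3: the place used in the proof. `L = F(ζ_M)` (compositum in `Om`), `P` a prime of `L` with `N(P) = p`, `p` not dividing `M D`
(E1), `O`, `σ` from E2; `rs O p = 0` as `p ∈ P`; `M ∣ p - 1` since the `M`-th roots of unity of `L` inject into the group
`(𝓞 L ⧸ P)ˣ` of order `p - 1` (`1 - ζ` divides `M`). `Gal(Om/L) ⊂ Gal(Om/F)`. Uses E1, E2. -/
def E3_stmt : Prop := ∀ (F : IntermediateField ℚ Om) [FiniteDimensional ℚ F] (M D : ℕ), 0 < M →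
  0 < D → ∃ (p : ℕ) (_ : Fact p.Prime) (O : ValuationSubring Om) (σ : Om ≃ₐ[F] Om),
    M ∣ p - 1 ∧ ((D : ℕ) : rf O) ≠ 0 ∧ CharP (rf O) p ∧ IsFrobO O σ.toRingEquiv p

/-- E4: the cyclotomic character. For a root of unity `ζ` of order `l^n`: `rs (σ ζ) = rs (ζ^p)`, and roots of unity of order
`l^n` are different modulo the maximal ideal (`l` is a unit in `O`), so `σ ζ = ζ^p`. See `Pool/Agent/helper63/HC/TTG2.lean`. -/
def E4_stmt : Prop := ∀ (O : ValuationSubring Om) (σ : Om ≃+* Om) (p l : ℕ) [Fact l.Prime],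
  IsFrobO O σ p → ((l : ℕ) : rf O) ≠ 0 → chiO l σ = (p : ℚ_[l])

/-- E5: roots of unity. `s a` is the `m`-th root of unity in `Om` with `s a ≡ a^α`, `t a ≡ (1 - a)^α` (reduction is a bijection of
the `m`-th roots of unity as `m` is invertible; Hensel is not needed: injective and both have `m` elements). For `a, b`
prime to `p`: multiplicative, depends on `a` modulo `p`: `s a = χ(a)`, `t a = χ(1 - a)` for a multiplicative character
`χ : MulChar (ZMod p) Om` of order `m`; `χ(a) ≡ a^α`. -/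
def E5_stmt : Prop := ∀ (O : ValuationSubring Om) (p m α : ℕ) [Fact p.Prime] [NeZero m]
  [CharP (rf O) p], m * α = p - 1 → ∃ χ : MulChar (ZMod p) Om, orderOf χ = m ∧
    (∀ a : ZMod p, a ≠ 0 → ∃ y : O, (y : Om) = χ a ∧ rs O y = ((a.val : ℕ) : rf O) ^ α) ∧
    ∃ s t : ℕ → rootsOfUnity m Om, ∀ a ∈ Finset.Ico 2 p,
      (((s a : Omˣ) : Om) = χ (a : ZMod p)) ∧ (((t a : Omˣ) : Om) = χ (1 - (a : ZMod p)))

/-- E6: Jacobi sums. `J = ∑_a χ(a)^b χ(1-a)^c ≡ ∑_{a ∈ 𝔽_p} a^(α b) (1-a)^(α c) = 0` modulo the maximal ideal, as the degree of the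
polynomial is less than `p - 1` (`FiniteField.sum_pow_lt_card_sub_one`); `J' = ∑_a χ(a)^(-b) χ(1-a)^(-c) ≡
∑ a^(α(m-b)) (1-a)^(α(m-c)) = ∓ binom(α (m-c), α b) ≠ 0`: only the coefficient of `X^(p-1)` contributes (the degree is
less than `2 (p-1)`), `0 < α b ≤ α (m - c) < p`. `J J' = p` (`jacobiSum_mul_jacobiSum_inv`). -/
def E6_stmt : Prop := ∀ (O : ValuationSubring Om) (p m α : ℕ) [Fact p.Prime] [NeZero m]
  [CharP (rf O) p] (χ : MulChar (ZMod p) Om), m * α = p - 1 → orderOf χ = m →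
  (∀ a : ZMod p, a ≠ 0 → ∃ y : O, (y : Om) = χ a ∧ rs O y = ((a.val : ℕ) : rf O) ^ α) →
  ∀ b c : ℕ, 0 < b → 0 < c → b + c < m → ∃ x x' : O,
    (x : Om) = ∑ a ∈ Finset.Ico 2 p, χ (a : ZMod p) ^ b * χ (1 - (a : ZMod p)) ^ c ∧
    (x' : Om) = ∑ a ∈ Finset.Ico 2 p, (χ (a : ZMod p))⁻¹ ^ b * (χ (1 - (a : ZMod p)))⁻¹ ^ c ∧
    rs O x = 0 ∧ rs O x' ≠ 0 ∧ x * x' = (p : O)

/-! ## G. Tate modules and exterior algebras -/

/-- G1: the lattice. `U0 = {f ∈ U | f = 0 on ℤ_l}`. Choose `f_1, .., f_r ∈ U0` such that the `f_i(l⁻¹)` are a basis of the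
`𝔽_l`-space `{f(l⁻¹) | f ∈ U0}` (elements `f_i(l⁻¹)` independent modulo `l` have `f_i` independent over `ℚ_l`: scale a relation
so that the largest coefficient has norm one, evaluate at `l⁻¹`; so `r ≤ dim U`). Then `U0 = ∑ ℤ_l f_i`: successive
approximation, `f - ∑ a_i f_i` vanishes at `l⁻¹`, so on `l⁻¹ ℤ_l`, so it is `l` times an element of `U0`; limits. -/
def G1_stmt : Prop := ∀ (l : ℕ) [Fact l.Prime] (A : Type) [AddCommGroup A]
  (U : Submodule ℚ_[l] (VT l A)) [FiniteDimensional ℚ_[l] U],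
  ∃ (r : ℕ) (f : Fin r → VT l A), (∀ i, f i ∈ U ∧ ∀ z : ℤ_[l], (f i).val z = 0) ∧
    ∀ g ∈ U, (∀ z : ℤ_[l], g.val z = 0) → ∃ c : Fin r → ℤ_[l], g = ∑ i, (c i : ℚ_[l]) • f i

/-- G2: injectivity from finitely many torsion elements. `S = {g(l^(-1-e)) | g ∈ U0, g(l⁻¹) ≠ 0}` is finite by G1
(`(c f)(l^(-1-e))`, `c ∈ ℤ_l`, depends only on `c` modulo `l^(1+e)`). If `0 ≠ g ∈ U` and `φ ∘ g = 0`: `l^k g` for a suitable
`k ∈ ℤ` is in `U0` and does not vanish at `l⁻¹` (take `k` minimal with `g = 0` on `l^k ℤ_l`), so `φ` kills an element of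
`S`. Uses G1. -/
def G2_stmt : Prop := ∀ (l : ℕ) [Fact l.Prime] (A : Type) [AddCommGroup A]
  (U : Submodule ℚ_[l] (VT l A)) [FiniteDimensional ℚ_[l] U] (e : ℕ),
  ∃ S : Finset A, (∀ s ∈ S, l ^ e • s ≠ 0 ∧ l ^ (e + 1) • s = 0) ∧
    ∀ (B : Type) [AddCommGroup B] (φ : A →+ B), (∀ s ∈ S, φ s ≠ 0) →
      ∀ g ∈ U, VT.map l φ g = 0 → g = 0

/-- G3: exterior algebra. (1) every element lies in the exterior algebra of a finite dimensional subspace
(`ExteriorAlgebra.induction`), which may be taken stable under a finite set `Γ` of operators closed under composition.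
(2) `map s` is injective on the exterior algebra of `U` if `s` is injective on `U` (`ExteriorAlgebra.map_injective_field`);
`map s (map J X) = map (s J) X = map (s σ) X = q map s X`, and `map J X - q X` is in the exterior algebra of `U`. -/
def G3_stmt : Prop :=
  (∀ (k V : Type) [Field k] [AddCommGroup V] [Module k V] (Γ : Set (V →ₗ[k] V)), Γ.Finite →
    LinearMap.id ∈ Γ → (∀ g ∈ Γ, ∀ h ∈ Γ, g ∘ₗ h ∈ Γ) → ∀ X : ExteriorAlgebra k V,
    ∃ U : Submodule k V, FiniteDimensional k U ∧ (∀ g ∈ Γ, ∀ u ∈ U, g u ∈ U) ∧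
      X ∈ (ExteriorAlgebra.map U.subtype).range) ∧
  ∀ (k V V' : Type) [Field k] [AddCommGroup V] [Module k V] [AddCommGroup V'] [Module k V']
    (U : Submodule k V) (s : V →ₗ[k] V') (σ J : V →ₗ[k] V) (X : ExteriorAlgebra k V) (q : k),
    (∀ u ∈ U, J u ∈ U) → (∀ u ∈ U, s u = 0 → u = 0) → s ∘ₗ σ = s ∘ₗ J →
    X ∈ (ExteriorAlgebra.map U.subtype).range → ExteriorAlgebra.map σ X = q • X →
    ExteriorAlgebra.map J X = q • X

/-- G4: the relation `sp ∘ σ = - ∑ sp ∘ (s_a, t_a)` on classes. Check on classes of points (A7): if `q` reduces to a point, use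
D5 for the reduction (`k = rf O` is algebraically closed, B1) - `σ q` reduces to its `p`-th power, `(s a u, t a v)` to
`(a^α u, (1-a)^α v)`; otherwise all reduce to infinity (B1 (b)). Uses A7, B1, D5. -/
def G4_stmt : Prop := ∀ (O : ValuationSubring Om) (σ : Om ≃+* Om) (p m α : ℕ) [Fact p.Prime]
  [CharP (rf O) p] [NeZero m] [NeZero (m : rf O)] [IsDedekindDomain (FR Om m m)]
  [IsDedekindDomain (FR (rf O) m m)] (sp : ClassGroup (FR Om m m) →* ClassGroup (FR (rf O) m m)),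
  IsSp O sp → IsFrobO O σ p → m * α = p - 1 → ∀ s t : ℕ → rootsOfUnity m Om,
  (∀ a ∈ Finset.Ico 2 p, ∃ y z : O, (y : Om) = ((s a : Omˣ) : Om) ∧ rs O y = (a : rf O) ^ α ∧
    (z : Om) = ((t a : Omˣ) : Om) ∧ rs O z = (1 - (a : rf O)) ^ α) →
  ∀ c : ClassGroup (FR Om m m), sp (ClassGroup.mulEquiv (FR.aut σ 1 1) c) *
    ∏ a ∈ Finset.Ico 2 p, sp (ClassGroup.mulEquiv (FR.aut (RingEquiv.refl Om) (s a) (t a)) c) = 1

/-! ## F. Complex tori -/

/-- F1: `W ⧸ Lam` is of CM type. `SJ3.QC`: the diagonal operator with eigenvalues `∑_g q_i(g) χ(g)`, `q_i` from `SJ3.QH` for the group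
`μ_(m_i)(Om) × μ_(m_i)(Om)` and the characters `(b, c) ∈ Hol (m_i)` (different, and no two are conjugate: `b + c < m`). The
tuples that are `1` outside `i` act on the factor `i`. -/
def F1_stmt : Prop := ∀ (r : ℕ) (m : Fin r → ℕ) [∀ i, NeZero (m i)] (ι : Om →+* ℂ)
  (Lam : AddSubgroup (Idx m → ℂ)), IsLattice Lam → (∀ g : Tup Om m, ∀ w ∈ Lam, actC ι g w ∈ Lam) →
  Nonempty (CMData (Idx m → ℂ) Lam)

/-- the data of F2 - F4: an endomorphism `T` of `ℂ^I ⧸ Lam`, diagonal with eigenvalues `ι(x_j)`, `x_j x'_j = p`, `x'_j` prime to `p`,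
`conj ι(x_j) = ι(x'_j)` -/
structure IsT {I : Type} (Lam : AddSubgroup (I → ℂ)) (ι : Om →+* ℂ) (O : ValuationSubring Om)
    (p : ℕ) (x x' : I → Om) (T : (I → ℂ) →ₗ[ℂ] (I → ℂ)) : Prop where
  lat : ∀ w ∈ Lam, T w ∈ Lam
  diag : ∀ w j, T w j = ι (x j) * w j
  con : ∀ j, conj (ι (x j)) = ι (x' j)
  mul : ∀ j, x j * x' j = p
  unit : ∀ j, ∃ y : O, (y : Om) = x' j ∧ rs O y ≠ 0
  char : rs O (p : O) = 0
  ne : p ≠ 0

/-- F2: eigenclasses are of type `(a, a)`. In coordinates `z_j = w_j`, `conj w_j` (`KND`, `KHP` of SpecP: a class is determined by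
the values of the determinants of the coordinates): the coordinate with `h` holomorphic and `2a - h` antiholomorphic
functions has `T`-eigenvalue `∏ ι(x_j) ∏ ι(x'_j)`; if it is `p^a = ι(p^a)` then `p^h ∏ x'.. = p^a ∏ x'..`, so `h = a`
(`p` is not a unit in `O`, the `x'` are); `rot t` acts on it as `exp(i (2h - 2a) t) = 1`. -/
def F2_stmt : Prop := ∀ (I : Type) [Fintype I] (Lam : AddSubgroup (I → ℂ)) (ι : Om →+* ℂ)
  (O : ValuationSubring Om) (p : ℕ) (x x' : I → Om) (T : (I → ℂ) →ₗ[ℂ] (I → ℂ)),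
  IsT Lam ι O p x x' T → ∀ (a : ℕ) (X : ExteriorAlgebra ℝ (I → ℂ)),
  X ∈ (⋀[ℝ]^(2 * a) (I → ℂ) : Submodule ℝ (ExteriorAlgebra ℝ (I → ℂ))) →
  ExteriorAlgebra.map (T.restrictScalars ℝ) X = (p : ℝ) ^ a • X →
  ∀ t : ℝ, ExteriorAlgebra.map (rot (W := I → ℂ) t) X = X

/-- F3: integral Hodge classes on CM tori are combinations of classes of ball quotients (`HodgeCM_stmt`). The functional
`η ↦ pair η (toR c)` is a Hodge class (`IsHodge`: rational on rational forms as `c` is an integral combination of products of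
lattice vectors; invariant under `rot`), so it is `∑ q_i cls(M_i, f_i)`; the class `x_i` of `cls(M_i, f_i)` (`KL0`; linear: TB3) is
rational (TB6 of TSpec, duality: a class on which all rational forms are rational is rational), so `n_i x_i = toR c_i`;
`toR c = ∑ (q_i / n_i) toR c_i`, so `toQ c = ∑ (q_i / n_i) toQ c_i` (TQA2). Uses HodgeCM, TB3, TB6, KL0, TQA2. -/
def F3_stmt : Prop := ∀ (W : Type) [NormedAddCommGroup W] [NormedSpace ℂ W] [FiniteDimensional ℂ W]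
  (Lam : AddSubgroup W), IsLattice Lam → Nonempty (CMData W Lam) → ∀ (l : ℕ) [Fact l.Prime] (a : ℕ)
  (c : ExteriorAlgebra ℤ Lam), c ∈ (⋀[ℤ]^(2 * a) Lam : Submodule ℤ (ExteriorAlgebra ℤ Lam)) →
  (∀ t : ℝ, ExteriorAlgebra.map (rot (W := W) t) (toR Lam c) = toR Lam c) →
  IsBQL Lam l a (toQ Lam l c)

/-- F4: `Ξ` with `T Ξ = p^a Ξ`. `Ξ = ∑ r_j toQ c_j` (TQA1), `T (toR c_j) = p^a toR c_j` (TQA4, TQB1), F2, F3. Uses TQA1, TQA3, TQA4,
TQB1, F2, F3. -/
def F4_stmt : Prop := ∀ (I : Type) [Fintype I] (Lam : AddSubgroup (I → ℂ)), IsLattice Lam →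
  Nonempty (CMData (I → ℂ) Lam) → ∀ (ι : Om →+* ℂ) (O : ValuationSubring Om) (p : ℕ)
  (x x' : I → Om) (T : (I → ℂ) →ₗ[ℂ] (I → ℂ)) (hT : IsT Lam ι O p x x' T) (l : ℕ) [Fact l.Prime]
  (a : ℕ) (Ξ : ExteriorAlgebra ℚ_[l] (VQ Lam l)),
  Ξ ∈ (⋀[ℚ_[l]]^(2 * a) (VQ Lam l) : Submodule ℚ_[l] (ExteriorAlgebra ℚ_[l] (VQ Lam l))) →
  ExteriorAlgebra.map (indQ l (resL T hT.lat)) Ξ = (p : ℚ_[l]) ^ a • Ξ → IsBQL Lam l a Ξ

/-! ## H. Assembly -/

/-- H1: operators on `V_l`. Composition of the actions of tuples (A7). -/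
def H1_stmt : Prop := ∀ (r : ℕ) (m : Fin r → ℕ) [∀ i, NeZero (m i)] (l : ℕ) [Fact l.Prime],
  (∀ g h : Tup Om m, VT.map l (act (RingEquiv.refl Om) g) ∘ₗ VT.map l (act (RingEquiv.refl Om) h) =
    VT.map l (act (RingEquiv.refl Om) (g * h))) ∧
  VT.map l (act (RingEquiv.refl Om) (1 : Tup Om m)) = LinearMap.id ∧
  (Set.range fun g : Tup Om m => VT.map l (act (RingEquiv.refl Om) g)).Finite

/-- H2: the core. For a Tate class `X` there are `p`, `O` and tuples `g_a`, `a = 2, .., p-1`, such that `J = - ∑ g_a` acts on `X` as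
`p^a`, and the Jacobi sums have the properties of E6. Proof: `U` from G3 (1) with `Γ` = the tuples (H1); `e` such that `l^e` is
at least the `l`-part of all `m_i`; `S` from G2; for `s ∈ S` some component `s_i` has `m_i s_i ≠ 0` (`l^e s_i ≠ 0`, and `s_i` is killed by
a power of `l`), so C8 gives `D_s`; `M = ∏ m_i`, `D = l M ∏ D_s`; E3: `p`, `O`, `σ`; `sp_i` from B6, `s_i`, `t_i` from E5; G4;
`sp = ∏ sp_i` is injective on `U` (G2), `X` is a Tate class so `σ X = p^a X` (E4), G3 (2). -/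
def H2_stmt : Prop := ∀ (r : ℕ) (m : Fin r → ℕ) [∀ i, NeZero (m i)] (l : ℕ) [Fact l.Prime]
  (F : IntermediateField ℚ Om) [FiniteDimensional ℚ F] (a : ℕ)
  (X : ExteriorAlgebra ℚ_[l] (VT l (Jac Om m))),
  (∀ σ : Om ≃ₐ[F] Om, ExteriorAlgebra.map (VT.map l (act σ.toRingEquiv (1 : Tup Om m))) X =
    chiO l σ.toRingEquiv ^ a • X) →
  ∃ (p : ℕ) (_ : Fact p.Prime) (O : ValuationSubring Om) (g : ℕ → Tup Om m), CharP (rf O) p ∧
    (∀ (i : Fin r) (b c : ℕ), 0 < b → 0 < c → b + c < m i → ∃ x x' : O,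
      (x : Om) = ∑ j ∈ Finset.Ico 2 p, (((g j i).1 : Omˣ) : Om) ^ b * (((g j i).2 : Omˣ) : Om) ^ c ∧
      (x' : Om) = ∑ j ∈ Finset.Ico 2 p,
        ((((g j i).1 : Omˣ) : Om))⁻¹ ^ b * ((((g j i).2 : Omˣ) : Om))⁻¹ ^ c ∧
      rs O x = 0 ∧ rs O x' ≠ 0 ∧ x * x' = (p : O)) ∧
    ExteriorAlgebra.map (-∑ j ∈ Finset.Ico 2 p, VT.map l (act (RingEquiv.refl Om) (g j))) X =
      (p : ℚ_[l]) ^ a • X

/-- H3: the theorem. `T = - ∑ actC ι (g_j)`: `c` commutes with `J` and `T`, `Ξ = map c X`; F1, F4. -/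
def H3_stmt : Prop := TateFermat_stmt

end

end Pool.Agent.FJ
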