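import Pool.Agent.helper95.FJ.SpecC

/-!
# fj:BDN: the `w` close to the boundary, summed over the pairs
-/

set_option autoImplicit false

open Finset

noncomputable section

namespace Pool.Agent.FJ

open Pool.Agent.FI

/-- interchange of summation -/
theorem BDN_swap (S W' : Finset (ℤ × ℤ)) (G H : ℤ × ℤ → Finset (ℤ × ℤ)) (B : ℝ)
    (hGH : ∀ z' ∈ S, ∀ w ∈ G z', w ∈ W' ∧ z' ∈ H w) (hB : ∀ w ∈ W', (#(H w) : ℝ) ≤ B) :
    ∑ z' ∈ S, (#(G z') : ℝ) ≤ #W' * B := by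
  classical
  have e1 : ∀ z' ∈ S, (#(G z') : ℝ) ≤ ∑ w ∈ W', if z' ∈ H w then (1 : ℝ) else 0 := by
    intro z' hz'
    rw [← Finset.natCast_card_filter]
    have : #(G z') ≤ #{w ∈ W' | z' ∈ H w} :=
      card_le_card fun w hw => mem_filter.2 (hGH z' hz' w hw)
    exact_mod_cast this
  refine le_trans (sum_le_sum e1) ?_
  rw [sum_comm]
  calc ∑ w ∈ W', ∑ z' ∈ S, (if z' ∈ H w then (1 : ℝ) else 0) ≤ ∑ w ∈ W', B := by
        refine sum_le_sum fun w hw => ?_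
        rw [← Finset.natCast_card_filter]
        refine le_trans ?_ (hB w hw)
        have : #{z' ∈ S | z' ∈ H w} ≤ #(H w) :=
          card_le_card fun z' hz' => (mem_filter.1 hz').2
        exact_mod_cast this
    _ = #W' * B := by rw [sum_const, nsmul_eq_mul]

theorem BDN_arith (C₁ C₂ : ℝ) (h1 : 0 < C₁) (h2 : 0 < C₂) (x N R A K₃ : ℕ) (hS : Siz x N R A) (hK : 1 ≤ K₃) :
    50 * (N : ℝ) * (C₁ * (R * (4 * A / K₃ / √(N : ℝ) + 1)) * (C₂ * (√(N : ℝ) * (2 * A * √(N : ℝ) / x + 1)))) ≤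
      30000 * C₁ * C₂ * (N * A * (A / K₃ + √(N : ℝ))) := by
  obtain ⟨hx, hN, hR, hA, hAx, h5, h6, h7, h8⟩ := hS
  have hN0 : (0 : ℝ) < N := by exact_mod_cast hN
  have hx0 : (0 : ℝ) < x := by exact_mod_cast hx
  have hR0 : (0 : ℝ) < R := by exact_mod_cast hR
  have hA0 : (0 : ℝ) < A := by exact_mod_cast hA
  have hK0 : (0 : ℝ) < K₃ := by exact_mod_cast hK
  obtain ⟨s, hs⟩ : ∃ s : ℝ, s = √(N : ℝ) := ⟨_, rfl⟩
  have hs0 : 0 < s := by rw [hs]; exact Real.sqrt_pos.2 hN0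
  have hss : s * s = N := by rw [hs]; exact Real.mul_self_sqrt hN0.le
  rw [← hs]
  have h9 : R * s ≤ 50 * x := by
    have h6' : (R : ℝ) ^ 2 * N ≤ 2500 * x ^ 2 := by exact_mod_cast h6
    rw [← hss] at h6'
    refine abs_le_of_sq_le_sq' ?_ (by positivity) |>.2
    nlinarith
  have h10 : (x : ℝ) ≤ A * s := by
    have h7' : (x : ℝ) ^ 2 ≤ A ^ 2 * N := by exact_mod_cast h7
    rw [← hss] at h7'
    refine abs_le_of_sq_le_sq' ?_ (by positivity) |>.2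
    nlinarith
  have h11 : 1 ≤ A * s / x := by
    rw [le_div_iff₀ hx0]
    linarith
  have h12 : s * (2 * A * s / x + 1) ≤ 3 * (A * N / x) := by
    have e : 3 * (A * N / x) = s * (3 * (A * s / x)) := by
      rw [← hss]
      ring
    rw [e]
    refine mul_le_mul_of_nonneg_left ?_ hs0.le
    have e2 : 2 * A * s / x = 2 * (A * s / x) := by ring
    rw [e2]
    linarith
  have h13 : R * (4 * A / K₃ / s + 1) ≤ 50 * x * (4 * A / K₃ / N + 1 / s) := by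
    have e : R * (4 * A / K₃ / s + 1) = R * s * (4 * A / K₃ / N + 1 / s) := by
      rw [← hss]
      field_simp
    rw [e]
    exact mul_le_mul_of_nonneg_right h9 (by positivity)
  calc 50 * (N : ℝ) * (C₁ * (R * (4 * A / K₃ / s + 1)) * (C₂ * (s * (2 * A * s / x + 1))))
      ≤ 50 * (N : ℝ) * (C₁ * (50 * x * (4 * A / K₃ / N + 1 / s)) * (C₂ * (3 * (A * N / x)))) := by gcongr
    _ = 7500 * C₁ * C₂ * (N * A * (4 * A / K₃ + N / s)) := by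
        field_simp
        ring
    _ ≤ 30000 * C₁ * C₂ * (N * A * (A / K₃ + s)) := by
        have e : (N : ℝ) / s = s := by
          rw [← hss]
          field_simp
        rw [e]
        have e2 : 30000 * C₁ * C₂ * (N * A * (A / K₃ + s)) = 7500 * C₁ * C₂ * (N * A * (4 * (A / K₃) + 4 * s)) := by ring
        rw [e2]
        have e3 : 4 * (A : ℝ) / K₃ = 4 * (A / K₃) := by ring
        rw [e3]
        gcongr
        linarith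

open scoped Classical in
/-- one of the cases -/
theorem BDN_case (hFFC : FFC_stmt) (C₁ C₂ : ℝ) (h1 : 0 < C₁) (h2 : 0 < C₂)
    (hB : ∀ N R : ℕ, 1 ≤ N → 1 ≤ R → ∀ z ∈ ZD N, ∀ (T : ℤ) (Y : ℝ), 0 ≤ Y →
      (#{w ∈ Bx R | |(ac z w : ℝ) - T| ≤ Y} : ℝ) ≤ C₁ * (R * (Y / √N + 1)))
    (hC : ∀ N x : ℕ, 1 ≤ N → 1 ≤ x → ∀ z₀ ∈ ZD N, ∀ w : ℤ × ℤ, (x : ℤ) < lc z₀ w → ∀ (T : ℤ) (Y : ℝ), 0 ≤ Y →
      (#{z ∈ ZD N | |(ac z w : ℝ) - T| ≤ Y} : ℝ) ≤ C₂ * (√N * (Y * √N / x + 1)))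
    (x N R A K₃ : ℕ) (hS : Siz x N R A) (hK : 1 ≤ K₃) (T : ℤ) :
    ∑ z ∈ ZD N, ∑ z' ∈ ZD N, (#{w ∈ Bx R | ((x : ℤ) < lc z w ∧ |(ac z w : ℝ) - T| ≤ 4 * A / K₃) ∧ |(ac z' w : ℝ) - (0 : ℤ)| ≤ 2 * A} : ℝ)
      ≤ 30000 * C₁ * C₂ * (N * A * (A / K₃ + √(N : ℝ))) := by
  have hZ : (#(ZD N) : ℝ) ≤ 50 * N := by
    have h1 : #(ZD N) ≤ #(FF (2 * N)) := card_le_card (filter_subset _ _)
    have h2 := (hFFC (2 * N)).1
    have h3 : (#(ZD N) : ℝ) ≤ (#(FF (2 * N)) : ℝ) := by exact_mod_cast h1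
    push_cast at h2
    linarith
  have hx : 1 ≤ x := hS.1
  have hN : 1 ≤ N := hS.2.1
  have hR : 1 ≤ R := hS.2.2.1
  have hN0 : (0 : ℝ) < N := by exact_mod_cast hN
  have hs : 0 < √(N : ℝ) := Real.sqrt_pos.2 hN0
  refine le_trans ?_ (BDN_arith C₁ C₂ h1 h2 x N R A K₃ hS hK)
  have hc : ∀ z ∈ ZD N, ∑ z' ∈ ZD N, (#{w ∈ Bx R | ((x : ℤ) < lc z w ∧ |(ac z w : ℝ) - T| ≤ 4 * A / K₃) ∧ |(ac z' w : ℝ) - (0 : ℤ)| ≤ 2 * A} : ℝ)
      ≤ C₁ * (R * (4 * A / K₃ / √(N : ℝ) + 1)) * (C₂ * (√(N : ℝ) * (2 * A * √(N : ℝ) / x + 1))) := by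
    intro z hz
    refine le_trans (BDN_swap (ZD N) {w ∈ Bx R | (x : ℤ) < lc z w ∧ |(ac z w : ℝ) - T| ≤ 4 * A / K₃} _
      (fun w => {z' ∈ ZD N | |(ac z' w : ℝ) - (0 : ℤ)| ≤ 2 * A}) (C₂ * (√(N : ℝ) * (2 * A * √(N : ℝ) / x + 1))) ?_ ?_) ?_
    · intro z' hz' w hw
      rw [mem_filter] at hw
      exact ⟨mem_filter.2 ⟨hw.1, hw.2.1⟩, mem_filter.2 ⟨hz', hw.2.2⟩⟩
    · intro w hw
      exact hC N x hN hx z hz w (mem_filter.1 hw).2.1 0 (2 * A) (by positivity)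
    · refine mul_le_mul_of_nonneg_right ?_ (by positivity)
      refine le_trans ?_ (hB N R hN hR z hz T (4 * A / K₃) (by positivity))
      have : #{w ∈ Bx R | (x : ℤ) < lc z w ∧ |(ac z w : ℝ) - T| ≤ 4 * A / K₃} ≤ #{w ∈ Bx R | |(ac z w : ℝ) - T| ≤ 4 * A / K₃} := by
        refine card_le_card fun w hw => ?_
        rw [mem_filter] at hw ⊢
        exact ⟨hw.1, hw.2.2⟩
      exact_mod_cast this
  refine le_trans (sum_le_sum hc) ?_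
  rw [sum_const, nsmul_eq_mul]
  refine mul_le_mul_of_nonneg_right hZ (by positivity)

theorem BDN (hBDZ : BDZ_stmt) (hCZP : CZP_stmt) (hFFC : FFC_stmt) : BDN_stmt := by
  classical
  obtain ⟨C₁, h1, hB⟩ := hBDZ
  obtain ⟨C₂, h2, hC⟩ := hCZP
  refine ⟨120000 * C₁ * C₂, by positivity, fun x N R A K₃ hS hK => ?_⟩
  have hK0 : (0 : ℝ) < K₃ := by exact_mod_cast hK
  obtain ⟨F, hF⟩ : ∃ F : ℤ → ℤ × ℤ → ℤ × ℤ → ℝ, ∀ T z z', F T z z' =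
    (#{w ∈ Bx R | ((x : ℤ) < lc z w ∧ |(ac z w : ℝ) - T| ≤ 4 * A / K₃) ∧ |(ac z' w : ℝ) - (0 : ℤ)| ≤ 2 * A} : ℝ) := ⟨_, fun _ _ _ => rfl⟩
  have hcase : ∀ T : ℤ, ∑ z ∈ ZD N, ∑ z' ∈ ZD N, F T z z' ≤ 30000 * C₁ * C₂ * (N * A * (A / K₃ + √(N : ℝ))) := by
    intro T
    have h := BDN_case hFFC C₁ C₂ h1 h2 hB hC x N R A K₃ hS hK T
    simp only [hF]
    exact h
  have hsub : ∀ z z' : ℤ × ℤ, (#(bdN x R A K₃ z z') : ℝ) ≤ F 0 z z' + F A z z' + (F 0 z' z + F A z' z) := by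
    intro z z'
    have hcov : bdN x R A K₃ z z' ⊆
        (({w ∈ Bx R | ((x : ℤ) < lc z w ∧ |(ac z w : ℝ) - (0 : ℤ)| ≤ 4 * A / K₃) ∧ |(ac z' w : ℝ) - (0 : ℤ)| ≤ 2 * A} : Finset (ℤ × ℤ)) ∪
         ({w ∈ Bx R | ((x : ℤ) < lc z w ∧ |(ac z w : ℝ) - ((A : ℤ) : ℝ)| ≤ 4 * A / K₃) ∧ |(ac z' w : ℝ) - (0 : ℤ)| ≤ 2 * A} : Finset (ℤ × ℤ))) ∪
        (({w ∈ Bx R | ((x : ℤ) < lc z' w ∧ |(ac z' w : ℝ) - (0 : ℤ)| ≤ 4 * A / K₃) ∧ |(ac z w : ℝ) - (0 : ℤ)| ≤ 2 * A} : Finset (ℤ × ℤ)) ∪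
         ({w ∈ Bx R | ((x : ℤ) < lc z' w ∧ |(ac z' w : ℝ) - ((A : ℤ) : ℝ)| ≤ 4 * A / K₃) ∧ |(ac z w : ℝ) - (0 : ℤ)| ≤ 2 * A} : Finset (ℤ × ℤ))) := by
      intro w hw
      unfold bdN at hw
      rw [mem_filter] at hw
      obtain ⟨hw0, hl1, hl2, ha1, ha2, hor⟩ := hw
      have ha1' : |(ac z w : ℝ) - ((0 : ℤ) : ℝ)| ≤ 2 * A := by
        rw [Int.cast_zero, sub_zero]
        exact_mod_cast ha1
      have ha2' : |(ac z' w : ℝ) - ((0 : ℤ) : ℝ)| ≤ 2 * A := by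
        rw [Int.cast_zero, sub_zero]
        exact_mod_cast ha2
      simp only [mem_union, mem_filter]
      rcases hor with h | h | h | h
      · left; left
        refine ⟨hw0, ⟨hl1, ?_⟩, ha2'⟩
        rw [le_div_iff₀ hK0, Int.cast_zero, sub_zero, mul_comm]
        exact_mod_cast h
      · left; right
        refine ⟨hw0, ⟨hl1, ?_⟩, ha2'⟩
        rw [le_div_iff₀ hK0, mul_comm]
        exact_mod_cast h
      · right; left
        refine ⟨hw0, ⟨hl2, ?_⟩, ha1'⟩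
        rw [le_div_iff₀ hK0, Int.cast_zero, sub_zero, mul_comm]
        exact_mod_cast h
      · right; right
        refine ⟨hw0, ⟨hl2, ?_⟩, ha1'⟩
        rw [le_div_iff₀ hK0, mul_comm]
        exact_mod_cast h
    have h3 := card_le_card hcov
    have h4 := (h3.trans (card_union_le _ _)).trans (Nat.add_le_add (card_union_le _ _) (card_union_le _ _))
    rw [hF, hF, hF, hF]
    exact_mod_cast h4
  rw [sum_product]
  calc ∑ z ∈ ZD N, ∑ z' ∈ ZD N, (#(bdN x R A K₃ z z') : ℝ)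
      ≤ ∑ z ∈ ZD N, ∑ z' ∈ ZD N, (F 0 z z' + F A z z' + (F 0 z' z + F A z' z)) :=
        sum_le_sum fun z _ => sum_le_sum fun z' _ => hsub z z'
    _ = ∑ z ∈ ZD N, ∑ z' ∈ ZD N, F 0 z z' + ∑ z ∈ ZD N, ∑ z' ∈ ZD N, F A z z' +
        (∑ z ∈ ZD N, ∑ z' ∈ ZD N, F 0 z z' + ∑ z ∈ ZD N, ∑ z' ∈ ZD N, F A z z') := by
        rw [sum_comm (f := fun z z' => F 0 z z'), sum_comm (f := fun z z' => F A z z')]
        simp only [sum_add_distrib]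
        rw [sum_comm (f := fun z z' => F 0 z z'), sum_comm (f := fun z z' => F A z z')]
    _ ≤ 120000 * C₁ * C₂ * (N * A * (A / K₃ + √(N : ℝ))) := by
        have := hcase 0
        have := hcase A
        linarith

end Pool.Agent.FJ
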