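import Mathlib

/-!
# Project fj: the affine Fermat curve, its points, its class group, Tate modules

`FR A n m = A[x, y] / (x^n + y^m - 1)`.  For `n = m` and a field `A = K` (algebraically closed, `m ≠ 0` in `K`) this
is the ring of regular functions on the affine Fermat curve `x^m + y^m = 1`.  The `m` points at infinity of the
projective curve differ by torsion classes, so `ClassGroup (FR K m m)` is the group of `K`-points of the Jacobian
modulo a finite subgroup, and has the same rational Tate module `V_l`.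
-/

namespace Pool.Agent.FJ

open Polynomial

noncomputable section

/-! ## The ring -/

/-- `y^m - (1 - x^n)` -/
def fpol (A : Type) [CommRing A] (n m : ℕ) : A[X][X] := X ^ m - C (1 - X ^ n)

/-- `A[x, y] / (x^n + y^m - 1)` -/
abbrev FR (A : Type) [CommRing A] (n m : ℕ) : Type := AdjoinRoot (fpol A n m)

namespace FR

variable {A B D : Type} [CommRing A] [CommRing B] [CommRing D] {n m : ℕ}

/-- the coordinate `x` -/
def x : FR A n m := AdjoinRoot.of (fpol A n m) X

/-- the coordinate `y` -/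
def y : FR A n m := AdjoinRoot.root (fpol A n m)

theorem rel : (x : FR A n m) ^ n + (y : FR A n m) ^ m = 1 := by
  have h : AdjoinRoot.mk (fpol A n m) (fpol A n m) = 0 := AdjoinRoot.mk_self
  have h2 : AdjoinRoot.mk (fpol A n m) (fpol A n m) =
      AdjoinRoot.mk (fpol A n m) (X ^ m - C (1 - X ^ n)) := rfl
  rw [map_sub, map_pow, AdjoinRoot.mk_X, AdjoinRoot.mk_C, map_sub, map_one, map_pow, h] at h2
  have h' : (y : FR A n m) ^ m - (1 - (x : FR A n m) ^ n) = 0 := h2.symm
  linear_combination h'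

/-- the homomorphism `x ↦ u`, `y ↦ v` which is `φ` on the coefficients -/
def lift (φ : A →+* B) (u v : B) (h : u ^ n + v ^ m = 1) : FR A n m →+* B :=
  AdjoinRoot.lift (eval₂RingHom φ u) v (by
    simp only [fpol, eval₂_sub, eval₂_X_pow, eval₂_C, coe_eval₂RingHom, eval₂_one]
    linear_combination h)

@[simp] theorem lift_x (φ : A →+* B) (u v : B) (h : u ^ n + v ^ m = 1) : lift φ u v h x = u := by
  simp [lift, x]

@[simp] theorem lift_y (φ : A →+* B) (u v : B) (h : u ^ n + v ^ m = 1) : lift φ u v h y = v := by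
  simp [lift, y]

@[simp] theorem lift_C (φ : A →+* B) (u v : B) (h : u ^ n + v ^ m = 1) (a : A) :
    lift φ u v h (algebraMap A (FR A n m) a) = φ a := by
  have h1 : algebraMap A (FR A n m) a = AdjoinRoot.of (fpol A n m) (C a) := rfl
  rw [h1, lift, AdjoinRoot.lift_of]
  simp

/-- homomorphisms are determined by the coefficients, `x` and `y` -/
theorem hom_ext (f g : FR A n m →+* B)
    (h : ∀ a : A, f (algebraMap A (FR A n m) a) = g (algebraMap A (FR A n m) a))
    (hx : f x = g x) (hy : f y = g y) : f = g := by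
  apply AdjoinRoot.ringHom_ext
  · apply Polynomial.ringHom_ext
    · intro a
      exact h a
    · exact hx
  · exact hy

/-- change of coefficients -/
def map (φ : A →+* B) : FR A n m →+* FR B n m :=
  lift ((algebraMap B (FR B n m)).comp φ) x y rel

@[simp] theorem map_x (φ : A →+* B) : map φ (x : FR A n m) = x := lift_x _ _ _ _

@[simp] theorem map_y (φ : A →+* B) : map φ (y : FR A n m) = y := lift_y _ _ _ _

@[simp] theorem map_C (φ : A →+* B) (a : A) :
    map φ (algebraMap A (FR A n m) a) = algebraMap B (FR B n m) (φ a) := lift_C _ _ _ _ _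

/-- `x ↦ s x`, `y ↦ t y` and `φ` on the coefficients, for `s^n = t^m = 1` -/
def tw (φ : A →+* B) (s t : B) (hs : s ^ n = 1) (ht : t ^ m = 1) : FR A n m →+* FR B n m :=
  lift ((algebraMap B (FR B n m)).comp φ) (algebraMap B (FR B n m) s * x)
    (algebraMap B (FR B n m) t * y) (by
      rw [mul_pow, mul_pow, ← map_pow, ← map_pow, hs, ht, map_one, one_mul, one_mul, rel])

@[simp] theorem tw_x (φ : A →+* B) (s t : B) (hs : s ^ n = 1) (ht : t ^ m = 1) :
    tw φ s t hs ht (x : FR A n m) = algebraMap B (FR B n m) s * x := lift_x _ _ _ _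

@[simp] theorem tw_y (φ : A →+* B) (s t : B) (hs : s ^ n = 1) (ht : t ^ m = 1) :
    tw φ s t hs ht (y : FR A n m) = algebraMap B (FR B n m) t * y := lift_y _ _ _ _

@[simp] theorem tw_C (φ : A →+* B) (s t : B) (hs : s ^ n = 1) (ht : t ^ m = 1) (a : A) :
    tw φ s t hs ht (algebraMap A (FR A n m) a) = algebraMap B (FR B n m) (φ a) :=
  lift_C _ _ _ _ _

theorem cancel {K : Type} [Field K] {n m : ℕ} (a : K) (h : a ≠ 0) (z : FR K n m) :
    algebraMap K (FR K n m) a * (algebraMap K (FR K n m) a⁻¹ * z) = z ∧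
      algebraMap K (FR K n m) a⁻¹ * (algebraMap K (FR K n m) a * z) = z := by
  rw [← mul_assoc, ← mul_assoc, ← map_mul, ← map_mul, mul_inv_cancel₀ h, inv_mul_cancel₀ h, map_one,
    one_mul]
  exact ⟨rfl, rfl⟩

/-- the automorphism of the ring given by an automorphism `σ` of the field and roots of unity `s`, `t`: it maps the ideal
of the point `(u, v)` to the ideal of the point `(s σ(u), t σ(v))` -/
def aut {K : Type} [Field K] (σ : K ≃+* K) (s : rootsOfUnity n K) (t : rootsOfUnity m K) :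
    FR K n m ≃+* FR K n m :=
  RingEquiv.ofRingHom
    (tw σ.toRingHom (((s⁻¹ : rootsOfUnity n K) : Kˣ) : K) (((t⁻¹ : rootsOfUnity m K) : Kˣ) : K)
      (by rw [← Units.val_pow_eq_pow_val, (mem_rootsOfUnity n _).1 (s⁻¹).2, Units.val_one])
      (by rw [← Units.val_pow_eq_pow_val, (mem_rootsOfUnity m _).1 (t⁻¹).2, Units.val_one]))
    (tw σ.symm.toRingHom (σ.symm ((s : Kˣ) : K)) (σ.symm ((t : Kˣ) : K))
      (by rw [← map_pow, ← Units.val_pow_eq_pow_val, (mem_rootsOfUnity n _).1 s.2, Units.val_one,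
        map_one])
      (by rw [← map_pow, ← Units.val_pow_eq_pow_val, (mem_rootsOfUnity m _).1 t.2, Units.val_one,
        map_one]))
    (by
      apply hom_ext
      · intro a
        simp
      · simp
        exact (cancel _ (Units.ne_zero _) _).1
      · simp
        exact (cancel _ (Units.ne_zero _) _).1)
    (by
      apply hom_ext
      · intro a
        simp
      · simp
        exact (cancel _ (by simp) _).2
      · simp
        exact (cancel _ (by simp) _).2)

theorem fpol_monic (A : Type) [CommRing A] [Nontrivial A] (n m : ℕ) (hm : m ≠ 0) :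
    (fpol A n m).Monic := monic_X_pow_sub_C _ hm

theorem fpol_irreducible (K : Type) [Field K] (n m : ℕ) [NeZero m] [NeZero (n : K)] :
    Irreducible (fpol K n m) := by
  have hm : m ≠ 0 := NeZero.ne m
  have hn : (n : K) ≠ 0 := NeZero.ne (n : K)
  have hn0 : n ≠ 0 := by
    rintro rfl
    exact hn Nat.cast_zero
  have hprime : (Ideal.span {(X - C (1 : K))} : Ideal K[X]).IsPrime := by
    rw [Ideal.span_singleton_prime (X_sub_C_ne_zero _)]
    exact prime_X_sub_C 1
  have hdvd : (X - C (1 : K)) ∣ (1 - X ^ n : K[X]) := by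
    rw [dvd_iff_isRoot]
    simp
  have hndvd : ¬ (X - C (1 : K)) ^ 2 ∣ (1 - X ^ n : K[X]) := by
    rintro ⟨q, hq⟩
    have h1 : derivative (1 - X ^ n : K[X]) = derivative ((X - C (1 : K)) ^ 2 * q) := by rw [hq]
    have h2 := congrArg (eval (1 : K)) h1
    simp [derivative_mul, derivative_pow] at h2
    exact hn h2
  have hE : (fpol K n m).IsEisensteinAt (Ideal.span {(X - C (1 : K))}) := by
    refine ⟨?_, ?_, ?_⟩
    · rw [(fpol_monic K n m hm).leadingCoeff, Ideal.mem_span_singleton]
      intro h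
      exact (prime_X_sub_C (1 : K)).not_isUnit (isUnit_of_dvd_one h)
    · intro i hi
      have hdeg : (fpol K n m).natDegree = m := natDegree_X_pow_sub_C
      rw [hdeg] at hi
      rw [fpol, coeff_sub, coeff_X_pow, if_neg hi.ne, coeff_C, zero_sub, Ideal.mem_span_singleton]
      split_ifs
      · exact (dvd_neg).2 hdvd
      · simp
    · rw [fpol, coeff_sub, coeff_X_pow, if_neg hm.symm, coeff_C, if_pos rfl, zero_sub,
        Ideal.span_singleton_pow, Ideal.mem_span_singleton, dvd_neg]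
      exact hndvd
  refine hE.irreducible hprime (fpol_monic K n m hm).isPrimitive ?_
  have hdeg : (fpol K n m).natDegree = m := natDegree_X_pow_sub_C
  rw [hdeg]
  exact Nat.pos_of_ne_zero hm

instance isDomain (K : Type) [Field K] (n m : ℕ) [NeZero m] [NeZero (n : K)] :
    IsDomain (FR K n m) :=
  AdjoinRoot.isDomain_of_prime (fpol_irreducible K n m).prime

end FR

/-! ## Points -/

/-- the `A`-points of `x^n + y^m = 1` -/
abbrev Pt (A : Type) [CommRing A] (n m : ℕ) : Type := {q : A × A // q.1 ^ n + q.2 ^ m = 1}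

/-- evaluation at a point -/
def ev {A : Type} [CommRing A] {n m : ℕ} (q : Pt A n m) : FR A n m →+* A :=
  FR.lift (RingHom.id A) q.1.1 q.1.2 q.2

/-- the ideal of a point -/
def ptI {A : Type} [CommRing A] {n m : ℕ} (q : Pt A n m) : Ideal (FR A n m) := RingHom.ker (ev q)

/-- the image of a point under a homomorphism -/
def mapPt {A B : Type} [CommRing A] [CommRing B] {n m : ℕ} (φ : A →+* B) (q : Pt A n m) : Pt B n m :=
  ⟨(φ q.1.1, φ q.1.2), by
    show φ q.1.1 ^ n + φ q.1.2 ^ m = 1
    rw [← map_pow, ← map_pow, ← map_add, q.2, map_one]⟩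

/-- the point `(s u, t v)` -/
def mulPt {A : Type} [CommRing A] {n m : ℕ} (s t : A) (hs : s ^ n = 1) (ht : t ^ m = 1)
    (q : Pt A n m) : Pt A n m :=
  ⟨(s * q.1.1, t * q.1.2), by
    show (s * q.1.1) ^ n + (t * q.1.2) ^ m = 1
    rw [mul_pow, mul_pow, hs, ht, one_mul, one_mul, q.2]⟩

/-! ## Tate modules -/

section Tate

variable (l : ℕ) [Fact l.Prime] (A B : Type) [AddCommGroup A] [AddCommGroup B]

/-- `V_l(A)`: the homomorphisms `ℚ_l → A` which vanish on `l^k ℤ_l` for some `k`. (The homomorphisms vanishing on `ℤ_l` are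
the elements of the Tate module `T_l(A) = lim A[l^k]`, and `V_l(A) = T_l(A) ⊗ ℚ_l`.) -/
def VT : Type := {f : ℚ_[l] →+ A // ∃ k : ℕ, ∀ z : ℤ_[l], f ((l : ℚ_[l]) ^ k * z) = 0}

variable {l A B}

namespace VT

/-- the value at `x ∈ ℚ_l` -/
def val (f : VT l A) (x : ℚ_[l]) : A := f.1 x

theorem ext {f g : VT l A} (h : ∀ x, f.val x = g.val x) : f = g :=
  Subtype.ext (AddMonoidHom.ext h)

theorem vanish (f : VT l A) {k : ℕ} (h : ∀ z : ℤ_[l], f.val ((l : ℚ_[l]) ^ k * z) = 0) {j : ℕ}
    (hj : k ≤ j) (z : ℤ_[l]) : f.val ((l : ℚ_[l]) ^ j * z) = 0 := by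
  obtain ⟨i, rfl⟩ := Nat.exists_eq_add_of_le hj
  have := h ((l : ℤ_[l]) ^ i * z)
  rw [← this]
  congr 1
  push_cast
  ring

instance : Zero (VT l A) := ⟨⟨0, 0, fun _ => rfl⟩⟩

instance : Add (VT l A) := ⟨fun f g => ⟨f.1 + g.1, by
  obtain ⟨k, hk⟩ := f.2
  obtain ⟨j, hj⟩ := g.2
  refine ⟨max k j, fun z => ?_⟩
  have h1 := vanish f hk (le_max_left k j) z
  have h2 := vanish g hj (le_max_right k j) z
  show f.val _ + g.val _ = 0
  rw [h1, h2, add_zero]⟩⟩

instance : Neg (VT l A) := ⟨fun f => ⟨-f.1, by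
  obtain ⟨k, hk⟩ := f.2
  refine ⟨k, fun z => ?_⟩
  show -(f.1 _) = 0
  rw [hk z, neg_zero]⟩⟩

@[simp] theorem zero_val (x : ℚ_[l]) : (0 : VT l A).val x = 0 := rfl
@[simp] theorem add_val (f g : VT l A) (x : ℚ_[l]) : (f + g).val x = f.val x + g.val x := rfl
@[simp] theorem neg_val (f : VT l A) (x : ℚ_[l]) : (-f).val x = -(f.val x) := rfl
@[simp] theorem val_zero (f : VT l A) : f.val 0 = 0 := map_zero f.1
theorem val_add (f : VT l A) (x y : ℚ_[l]) : f.val (x + y) = f.val x + f.val y := map_add f.1 x y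

instance : AddCommGroup (VT l A) where
  add_assoc f g h := ext fun x => add_assoc _ _ _
  zero_add f := ext fun x => zero_add _
  add_zero f := ext fun x => add_zero _
  add_comm f g := ext fun x => add_comm _ _
  neg_add_cancel f := ext fun x => neg_add_cancel _
  nsmul := nsmulRec
  zsmul := zsmulRec

/-- `(c f)(x) = f(c x)` -/
instance : SMul ℚ_[l] (VT l A) := ⟨fun c f => ⟨f.1.comp (AddMonoidHom.mulLeft c), by
  obtain ⟨k, hk⟩ := f.2
  obtain ⟨j, hj⟩ : ∃ j : ℕ, ‖(l : ℚ_[l]) ^ j * c‖ ≤ 1 := by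
    have hl : ‖(l : ℚ_[l])‖ < 1 := Padic.norm_p_lt_one
    have h0 : Filter.Tendsto (fun j : ℕ => ‖(l : ℚ_[l])‖ ^ j * ‖c‖) Filter.atTop (nhds (0 * ‖c‖)) :=
      (tendsto_pow_atTop_nhds_zero_of_lt_one (norm_nonneg _) hl).mul_const _
    rw [zero_mul] at h0
    obtain ⟨j, hj⟩ := (h0.eventually (gt_mem_nhds (zero_lt_one))).exists
    refine ⟨j, ?_⟩
    rw [norm_mul, norm_pow]
    exact hj.le
  refine ⟨k + j, fun z => ?_⟩
  have h1 := hk (⟨(l : ℚ_[l]) ^ j * c, hj⟩ * z)
  have h2 : c * ((l : ℚ_[l]) ^ (k + j) * (z : ℚ_[l])) =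
      (l : ℚ_[l]) ^ k * (((⟨(l : ℚ_[l]) ^ j * c, hj⟩ * z : ℤ_[l])) : ℚ_[l]) := by
    have h3 : (((⟨(l : ℚ_[l]) ^ j * c, hj⟩ * z : ℤ_[l])) : ℚ_[l]) =
        (l : ℚ_[l]) ^ j * c * (z : ℚ_[l]) := PadicInt.coe_mul _ _
    rw [h3]
    ring
  show f.1 (c * ((l : ℚ_[l]) ^ (k + j) * (z : ℚ_[l]))) = 0
  exact (congrArg f.1 h2).trans h1⟩⟩

@[simp] theorem smul_val (c : ℚ_[l]) (f : VT l A) (x : ℚ_[l]) : (c • f).val x = f.val (c * x) := rfl

instance : Module ℚ_[l] (VT l A) where
  one_smul f := ext fun x => by simp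
  mul_smul a b f := ext fun x => by
    rw [smul_val, smul_val, smul_val]
    congr 1
    ring
  smul_zero a := ext fun x => rfl
  smul_add a f g := ext fun x => rfl
  add_smul a b f := ext fun x => by
    rw [smul_val, add_val, smul_val, smul_val, ← val_add]
    congr 1
    ring
  zero_smul f := ext fun x => by
    rw [smul_val, zero_mul, val_zero, zero_val]

/-- the map of Tate modules induced by a homomorphism -/
def map (l : ℕ) [Fact l.Prime] (g : A →+ B) : VT l A →ₗ[ℚ_[l]] VT l B where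
  toFun f := ⟨g.comp f.1, by
    obtain ⟨k, hk⟩ := f.2
    refine ⟨k, fun z => ?_⟩
    show g (f.1 _) = 0
    rw [hk z, map_zero]⟩
  map_add' f f' := ext fun x => map_add g _ _
  map_smul' c f := ext fun x => rfl

@[simp] theorem map_val (g : A →+ B) (f : VT l A) (x : ℚ_[l]) : (map l g f).val x = g (f.val x) := rfl

end VT

end Tate

/-! ## The product of Jacobians -/

section Jac

variable {r : ℕ} (K : Type) [Field K] (m : Fin r → ℕ) [∀ i, NeZero (m i)] [∀ i, NeZero ((m i : ℕ) : K)]

/-- up to a finite subgroup the `K`-points of the product of the Jacobians of the Fermat curves `x^(m_i) + y^(m_i) = 1` -/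
abbrev Jac : Type := ∀ i, Additive (ClassGroup (FR K (m i) (m i)))

/-- families of pairs of `m_i`-th roots of unity -/
abbrev Tup : Type := ∀ i, rootsOfUnity (m i) K × rootsOfUnity (m i) K

variable {K m}

/-- the automorphism `σ` of the field and the automorphisms `(x, y) ↦ (s_i x, t_i y)` of the curves act on the classes:
the class of the point `(u, v)` goes to the class of `(s_i σ(u), t_i σ(v))` -/
def act (σ : K ≃+* K) (g : Tup K m) : Jac K m →+ Jac K m :=
  AddMonoidHom.pi fun i =>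
    (MonoidHom.toAdditive (ClassGroup.mulEquiv (FR.aut (n := m i) (m := m i) σ (g i).1 (g i).2)).toMonoidHom).comp
      (Pi.evalAddMonoidHom (fun i => Additive (ClassGroup (FR K (m i) (m i)))) i)

end Jac

end

end Pool.Agent.FJ
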